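import Pool.Agent.Helper24.U5P.Geo

/-!
# The developing map stays in the ball
-/

set_option autoImplicit false

namespace Pool.Agent.Helper24.U5P

open SimpleGraph Finset Pool.Agent.U5

variable {V : Type}

/-- the developing map, with a bound for the distance to `c` -/
theorem exists_dev' {H : SimpleGraph V} {c : V} {r : ℕ} (hf : FlatB H c (4 * r + 4)) :
    ∃ φ : ℤ → ℤ → V, (∀ a b : ℤ, |a| ≤ r → |b| ≤ r → Loc H φ a b) ∧
      ∀ a b : ℤ, |a| ≤ r + 1 → |b| ≤ r + 1 → ∃ p : H.Walk c (φ a b), p.length ≤ 4 * r + 4 := by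
  obtain ⟨l, hl⟩ := hf c ⟨Walk.nil, by simp⟩
  set A : V × (ZMod 6 → V) := (c, l) with hAdef
  have hA : Lab H A.1 A.2 := hl
  have hc : A.1 = c := rfl
  refine ⟨fun a b => (qd H A (a + (r + 1)).toNat (b + (r + 1)).toNat).1, ?_, ?_⟩
  · intro a b ha hb
    rw [abs_le] at ha hb
    obtain ⟨a', ha'⟩ : ∃ a' : ℕ, a + r = a' := ⟨(a + r).toNat, by omega⟩
    obtain ⟨b', hb'⟩ : ∃ b' : ℕ, b + r = b' := ⟨(b + r).toNat, by omega⟩
    have hab : a' + b' + 4 ≤ 4 * r + 4 := by omega
    have hall := qd_all hf hA hc hab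
    have hlab := (qd_lab hf hA hc (b' + 1) (a' + 1) (by omega)).1
    unfold Loc
    have e0 : ∀ (x y : ℤ) (x' y' : ℕ), a + x + (r + 1) = x' → b + y + (r + 1) = y' →
        (qd H A (a + x + (r + 1)).toNat (b + y + (r + 1)).toNat).1 = (qd H A x' y').1 := by
      intro x y x' y' h1 h2
      rw [h1, h2]
      simp
    have e1 : (qd H A (a + (r + 1)).toNat (b + (r + 1)).toNat).1 =
        (qd H A (a' + 1) (b' + 1)).1 := by
      have := e0 0 0 (a' + 1) (b' + 1) (by push_cast; omega) (by push_cast; omega)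
      simpa using this
    have e2 : (fun i => (qd H A (a + ex i + (r + 1)).toNat (b + ey i + (r + 1)).toNat).1) =
        (qd H A (a' + 1) (b' + 1)).2 := by
      obtain ⟨h0, h1, h2, h3, h4, h5⟩ := hall
      funext i
      fin_cases i
      · rw [show (⟨0, by decide⟩ : Fin 6) = (0 : ZMod 6) from rfl]
        rw [h0]
        exact e0 1 0 (a' + 2) (b' + 1) (by push_cast; omega) (by push_cast; omega)
      · rw [show (⟨1, by decide⟩ : Fin 6) = (1 : ZMod 6) from rfl]
        rw [h1]
        exact e0 0 1 (a' + 1) (b' + 2) (by push_cast; omega) (by push_cast; omega)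
      · rw [show (⟨2, by decide⟩ : Fin 6) = (2 : ZMod 6) from rfl]
        rw [h2]
        exact e0 (-1) 1 a' (b' + 2) (by push_cast; omega) (by push_cast; omega)
      · rw [show (⟨3, by decide⟩ : Fin 6) = (3 : ZMod 6) from rfl]
        rw [h3]
        exact e0 (-1) 0 a' (b' + 1) (by push_cast; omega) (by push_cast; omega)
      · rw [show (⟨4, by decide⟩ : Fin 6) = (4 : ZMod 6) from rfl]
        rw [h4]
        exact e0 0 (-1) (a' + 1) b' (by push_cast; omega) (by push_cast; omega)
      · rw [show (⟨5, by decide⟩ : Fin 6) = (5 : ZMod 6) from rfl]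
        rw [h5]
        exact e0 1 (-1) (a' + 2) b' (by push_cast; omega) (by push_cast; omega)
    show Lab H (qd H A (a + (r + 1)).toNat (b + (r + 1)).toNat).1
      (fun i => (qd H A (a + ex i + (r + 1)).toNat (b + ey i + (r + 1)).toNat).1)
    rw [e1, e2]
    exact hlab
  · intro a b ha hb
    rw [abs_le] at ha hb
    obtain ⟨p, hp⟩ := (qd_lab hf hA hc (b + (r + 1)).toNat (a + (r + 1)).toNat (by omega)).2
    exact ⟨p, by omega⟩

/-- a flat ball of radius `12` contains a flat hexagon of radius two; the ball of radius three of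
the lattice is mapped to the ball -/
theorem exists_hex {H : SimpleGraph V} {c : V} (hf : FlatB H c 12) {S : Finset V}
    (hS : ∀ v, (∃ p : H.Walk c v, p.length ≤ 12 + 1) → v ∈ S) :
    ∃ φ : ℤ → ℤ → V, HexLoc H φ ∧ ∀ a b : ℤ, |a| ≤ 3 → |b| ≤ 3 → φ a b ∈ S := by
  obtain ⟨φ, h1, h2⟩ := exists_dev' (r := 2) hf
  refine ⟨φ, fun a b ha hb _ => h1 a b (by exact_mod_cast ha) (by exact_mod_cast hb), ?_⟩
  intro a b ha hb
  obtain ⟨p, hp⟩ := h2 a b (by push_cast; linarith) (by push_cast; linarith)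
  exact hS _ ⟨p, by omega⟩

/-- deleting a window inside `S` gives a graph between `B` and `H` -/
theorem dl_between {B H : SimpleGraph V} {S K : Finset V} (hd : Data B H S) (hK : K ⊆ S) {x y : V}
    (hx : x ∈ K) (hxy : H.Adj x y) : B ≤ dl H K ∧ dl H K < H := by
  constructor
  · intro u v huv
    refine ⟨hd.le huv, fun h => hd.iso u (hK h) v huv, fun h => hd.iso v (hK h) u huv.symm⟩
  · refine lt_of_le_of_ne (fun u v h => h.1) ?_
    intro he
    have h1 : (dl H K).Adj x y := by rw [he]; exact hxy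
    exact h1.2.1 hx

end Pool.Agent.Helper24.U5P
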