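import Pool.Agent.Helper24.U5P.Geo

/-!
# Symmetries and adjacent windows
-/

set_option autoImplicit false

namespace Pool.Agent.Helper24.U5P

open SimpleGraph Finset Polynomial Pool.Agent.U5 Pool.Agent.U5C Pool.Agent.Helper36.BL

variable {V : Type}

/-- offsets of the slots -/
def offL : List (ℤ × ℤ) := [(2, 0), (1, 1), (0, 2), (-1, 2), (-2, 2), (-2, 1), (-2, 0), (-1, -1),
  (0, -2), (1, -2), (2, -2), (2, -1), (1, 0), (0, 1), (-1, 1), (-1, 0), (0, -1), (1, -1), (0, 0)]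

def off (j : ℕ) : ℤ × ℤ := offL.getD j (2, 0)

lemma off_ge {j : ℕ} (h : 19 ≤ j) : off j = (2, 0) := by
  unfold off
  rw [List.getD_eq_default]
  exact h

lemma e_vals : ex 0 = 1 ∧ ex 1 = 0 ∧ ex 2 = -1 ∧ ex 3 = -1 ∧ ex 4 = 0 ∧ ex 5 = 1 ∧
    ey 0 = 0 ∧ ey 1 = 1 ∧ ey 2 = 1 ∧ ey 3 = 0 ∧ ey 4 = -1 ∧ ey 5 = -1 := by decide

lemma pw_eq (φ : ℤ → ℤ → V) (a b : ℤ) (j : ℕ) :
    pw φ a b j = φ (a + (off j).1) (b + (off j).2) := by
  rcases lt_or_ge j 19 with hj | hj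
  · have s1 : (0 : ZMod 6) + 1 = 1 := by decide
    have s2 : (1 : ZMod 6) + 1 = 2 := by decide
    have s3 : (2 : ZMod 6) + 1 = 3 := by decide
    have s4 : (3 : ZMod 6) + 1 = 4 := by decide
    have s5 : (4 : ZMod 6) + 1 = 5 := by decide
    have s6 : (5 : ZMod 6) + 1 = 0 := by decide
    obtain ⟨g1, g2, g3, g4, g5, g6, g7, g8, g9, g10, g11, g12⟩ := e_vals
    interval_cases j <;>
      simp only [pw, slotV, fh, frc, frm, s1, s2, s3, s4, s5, s6, g1, g2, g3, g4, g5, g6, g7, g8,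
        g9, g10, g11, g12] <;> norm_num [off, offL]
  · rw [off_ge hj]
    obtain ⟨t, rfl⟩ : ∃ t, j = 19 + t := ⟨j - 19, by omega⟩
    have e : pw φ a b (19 + t) = frc φ a b 0 := by
      rw [show 19 + t = t + 19 from by ring]; rfl
    rw [e]
    obtain ⟨g1, g2, g3, g4, g5, g6, g7, g8, g9, g10, g11, g12⟩ := e_vals
    simp only [frc, g1, g7]
    norm_num

/-! ### rotation and reflection -/

def rot (φ : ℤ → ℤ → V) : ℤ → ℤ → V := fun a b => φ (-b) (a + b)
def mir (φ : ℤ → ℤ → V) : ℤ → ℤ → V := fun a b => φ (a + b) (-b)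

lemma rot6 (φ : ℤ → ℤ → V) : rot (rot (rot (rot (rot (rot φ))))) = φ := by
  funext a b
  simp only [rot]
  congr 1 <;> ring

lemma mir2 (φ : ℤ → ℤ → V) : mir (mir φ) = φ := by
  funext a b
  simp only [mir]
  congr 1 <;> ring

lemma rot_mir_rot (φ : ℤ → ℤ → V) : rot (mir (rot φ)) = mir φ := by
  funext a b
  simp only [mir, rot]
  congr 1 <;> ring

/-- slot permutation of the rotation -/
def rhoS (j : ℕ) : ℕ :=
  if j < 12 then (j + 2) % 12 else if j < 18 then 12 + (j - 11) % 6 else if j < 19 then j else 2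

/-- slot permutation of the reflection -/
def muS (j : ℕ) : ℕ :=
  if j < 12 then (12 - j) % 12 else if j < 18 then 12 + (18 - j) % 6 else if j < 19 then j else 0

lemma off_rho (j : ℕ) : off (rhoS j) = (-(off j).2, (off j).1 + (off j).2) := by
  rcases lt_or_ge j 19 with hj | hj
  · interval_cases j <;> decide
  · rw [off_ge hj]
    have : rhoS j = 2 := by unfold rhoS; split_ifs <;> omega
    rw [this]
    decide

lemma off_mu (j : ℕ) : off (muS j) = ((off j).1 + (off j).2, -(off j).2) := by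
  rcases lt_or_ge j 19 with hj | hj
  · interval_cases j <;> decide
  · rw [off_ge hj]
    have : muS j = 0 := by unfold muS; split_ifs <;> omega
    rw [this]
    decide

lemma pw_rot (φ : ℤ → ℤ → V) (a b : ℤ) (j : ℕ) :
    pw (rot φ) a b j = pw φ (-b) (a + b) (rhoS j) := by
  rw [pw_eq, pw_eq, off_rho]
  simp only [rot]
  congr 1 <;> ring

lemma pw_mir (φ : ℤ → ℤ → V) (a b : ℤ) (j : ℕ) :
    pw (mir φ) a b j = pw φ (a + b) (-b) (muS j) := by
  rw [pw_eq, pw_eq, off_mu]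
  simp only [mir]
  congr 1 <;> ring

lemma ex_succ (i : ZMod 6) : ex (i + 1) = -ey i ∧ ey (i + 1) = ex i + ey i := by
  revert i; decide

lemma ex_neg (i : ZMod 6) : ex (-i) = ex i + ey i ∧ ey (-i) = -ey i := by
  revert i; decide

lemma Lab_succ {H : SimpleGraph V} {v : V} {l : ZMod 6 → V} (h : Lab H v l) :
    Lab H v (fun i => l (i + 1)) := by
  refine ⟨fun x y hxy => add_right_cancel (h.inj hxy), ?_, ?_⟩
  · intro x
    rw [h.adj]
    constructor
    · rintro ⟨i, rfl⟩; exact ⟨i - 1, by simp⟩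
    · rintro ⟨i, rfl⟩; exact ⟨i + 1, rfl⟩
  · intro i j
    rw [h.cyc]
    constructor
    · rintro (h1 | h1)
      · left; linear_combination h1
      · right; linear_combination h1
    · rintro (h1 | h1)
      · left; linear_combination h1
      · right; linear_combination h1

lemma Lab_neg {H : SimpleGraph V} {v : V} {l : ZMod 6 → V} (h : Lab H v l) :
    Lab H v (fun i => l (-i)) := by
  refine ⟨fun x y hxy => neg_injective (h.inj hxy), ?_, ?_⟩
  · intro x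
    rw [h.adj]
    constructor
    · rintro ⟨i, rfl⟩; exact ⟨-i, by simp⟩
    · rintro ⟨i, rfl⟩; exact ⟨-i, rfl⟩
  · intro i j
    rw [h.cyc]
    constructor
    · rintro (h1 | h1)
      · right; linear_combination -h1
      · left; linear_combination -h1
    · rintro (h1 | h1)
      · right; linear_combination -h1
      · left; linear_combination -h1

theorem HexLoc.rot {H : SimpleGraph V} {φ : ℤ → ℤ → V} (h : HexLoc H φ) :
    HexLoc H (rot φ) := by
  intro a b ha hb hab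
  have h1 : Loc H φ (-b) (a + b) := h (-b) (a + b) (by rwa [abs_neg]) hab (by
    rw [show -b + (a + b) = a from by ring]; exact ha)
  have h2 := Lab_succ h1
  have e : (fun i : ZMod 6 => (fun i : ZMod 6 => φ (-b + ex i) (a + b + ey i)) (i + 1)) =
      (fun i => U5P.rot φ (a + ex i) (b + ey i)) := by
    funext i
    simp only [U5P.rot, (ex_succ i).1, (ex_succ i).2]
    congr 1 <;> ring
  unfold Loc
  rw [← e]
  exact h2

theorem HexLoc.mir {H : SimpleGraph V} {φ : ℤ → ℤ → V} (h : HexLoc H φ) :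
    HexLoc H (mir φ) := by
  intro a b ha hb hab
  have h1 : Loc H φ (a + b) (-b) := h (a + b) (-b) hab (by rwa [abs_neg]) (by
    rw [show a + b + -b = a from by ring]; exact ha)
  have h2 := Lab_neg h1
  have e : (fun i : ZMod 6 => (fun i : ZMod 6 => φ (a + b + ex i) (-b + ey i)) (-i)) =
      (fun i => U5P.mir φ (a + ex i) (b + ey i)) := by
    funext i
    simp only [U5P.mir, (ex_neg i).1, (ex_neg i).2]
    congr 1 <;> ring
  unfold Loc
  rw [← e]
  exact h2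

/-! ### averages over the dihedral group -/

/-- sum over the twelve symmetries -/
def avg (F : (ℤ → ℤ → V) → ℝ) (φ : ℤ → ℤ → V) : ℝ :=
  (F φ + F (rot φ) + F (rot (rot φ)) + F (rot (rot (rot φ))) + F (rot (rot (rot (rot φ)))) +
    F (rot (rot (rot (rot (rot φ)))))) +
  (F (mir φ) + F (rot (mir φ)) + F (rot (rot (mir φ))) + F (rot (rot (rot (mir φ)))) +
    F (rot (rot (rot (rot (mir φ))))) + F (rot (rot (rot (rot (rot (mir φ)))))))

lemma avg_rot (F : (ℤ → ℤ → V) → ℝ) (φ : ℤ → ℤ → V) :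
    avg (fun ψ => F (rot ψ)) φ = avg F φ := by
  unfold avg
  simp only [rot6]
  ring

lemma mir_rot (φ : ℤ → ℤ → V) : mir (rot φ) = rot (rot (rot (rot (rot (mir φ))))) := by
  have h := rot_mir_rot φ
  rw [← h, rot6]

lemma avg_mir (F : (ℤ → ℤ → V) → ℝ) (φ : ℤ → ℤ → V) :
    avg (fun ψ => F (mir ψ)) φ = avg F φ := by
  unfold avg
  simp only [mir_rot, mir2, rot6]
  ring

lemma avg_congr {H : SimpleGraph V} {F G : (ℤ → ℤ → V) → ℝ} {φ : ℤ → ℤ → V}
    (hφ : HexLoc H φ) (h : ∀ ψ, HexLoc H ψ → F ψ = G ψ) : avg F φ = avg G φ := by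
  have r1 := hφ.rot
  have r2 := r1.rot
  have r3 := r2.rot
  have r4 := r3.rot
  have r5 := r4.rot
  have m0 := hφ.mir
  have m1 := m0.rot
  have m2 := m1.rot
  have m3 := m2.rot
  have m4 := m3.rot
  have m5 := m4.rot
  unfold avg
  rw [h _ hφ, h _ r1, h _ r2, h _ r3, h _ r4, h _ r5, h _ m0, h _ m1, h _ m2, h _ m3, h _ m4,
    h _ m5]

lemma avg_nonneg {H : SimpleGraph V} {F : (ℤ → ℤ → V) → ℝ} {φ : ℤ → ℤ → V}
    (hφ : HexLoc H φ) (h : ∀ ψ, HexLoc H ψ → 0 ≤ F ψ) : 0 ≤ avg F φ := by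
  have r1 := hφ.rot
  have r2 := r1.rot
  have r3 := r2.rot
  have r4 := r3.rot
  have r5 := r4.rot
  have m0 := hφ.mir
  have m1 := m0.rot
  have m2 := m1.rot
  have m3 := m2.rot
  have m4 := m3.rot
  have m5 := m4.rot
  have := h _ hφ
  have := h _ r1
  have := h _ r2
  have := h _ r3
  have := h _ r4
  have := h _ r5
  have := h _ m0
  have := h _ m1
  have := h _ m2
  have := h _ m3
  have := h _ m4
  have := h _ m5
  unfold avg
  positivity

lemma avg_const (x : ℝ) (φ : ℤ → ℤ → V) : avg (fun _ : ℤ → ℤ → V => x) φ = 12 * x := by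
  unfold avg; ring

lemma avg_add (F G : (ℤ → ℤ → V) → ℝ) (φ : ℤ → ℤ → V) :
    avg (fun ψ => F ψ + G ψ) φ = avg F φ + avg G φ := by
  unfold avg; ring

lemma avg_mul (x : ℝ) (F : (ℤ → ℤ → V) → ℝ) (φ : ℤ → ℤ → V) :
    avg (fun ψ => x * F ψ) φ = x * avg F φ := by
  unfold avg; ring

lemma lin_avg {K : Type} (ι : K → ℝ) (Λ : (ℤ → ℤ → V) → ℕ → ℝ) (φ : ℤ → ℤ → V) (L : FL K) :
    lin ι (fun s => avg (fun ψ => Λ ψ s) φ) L = avg (fun ψ => lin ι (Λ ψ) L) φ := by
  induction L with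
  | nil => simp [avg]
  | cons s c L ih => simp only [lin_cons, ih, avg_add, avg_mul]

lemma linT_avg {K : Type} (ι : K → ℝ) (Λ : (ℤ → ℤ → V) → ℕ → ℝ) (φ : ℤ → ℤ → V) (T : Tr K) :
    linT ι (fun s => avg (fun ψ => Λ ψ s) φ) T = avg (fun ψ => linT ι (Λ ψ) T) φ := by
  induction T with
  | lf L => exact lin_avg ι Λ φ L
  | nd l r ihl ihr => simp only [linT_nd, ihl, ihr, avg_add]

/-! ### adjacent windows -/

/-- the ring of the rhombus of the windows `w`, `w + e_d`, in slots of `w` -/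
def sg1 (d : ℕ) : List ℕ := [12 + (d + 2) % 6, 12 + (d + 3) % 6, 12 + (d + 4) % 6,
  2 * ((d + 4) % 6) + 1, 2 * ((d + 5) % 6), 2 * ((d + 5) % 6) + 1, 2 * (d % 6), 2 * (d % 6) + 1,
  2 * ((d + 1) % 6), 2 * ((d + 1) % 6) + 1]

/-- the same in slots of `w + e_d` -/
def sg2 (d : ℕ) : List ℕ := [2 * ((d + 2) % 6) + 1, 2 * ((d + 3) % 6), 2 * ((d + 3) % 6) + 1,
  2 * ((d + 4) % 6), 2 * ((d + 4) % 6) + 1, 12 + (d + 5) % 6, 12 + d % 6, 12 + (d + 1) % 6,
  2 * ((d + 1) % 6) + 1, 2 * ((d + 2) % 6)]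

/-- the rhombus in slots of `w` -/
def S1 (d : ℕ) : List ℕ := [18, 12 + d % 6, 12 + (d + 1) % 6, 12 + (d + 5) % 6]

/-- the rhombus in slots of `w + e_d` -/
def S2 (d : ℕ) : List ℕ := [12 + (d + 3) % 6, 18, 12 + (d + 2) % 6, 12 + (d + 4) % 6]

lemma off_sg : ∀ d, d < 6 → ∀ k, k < 10 →
    off ((sg1 d).getD k 0) = (ex (d : ZMod 6) + (off ((sg2 d).getD k 0)).1,
      ey (d : ZMod 6) + (off ((sg2 d).getD k 0)).2) := by decide

lemma off_S : ∀ d, d < 6 → ∀ k, k < 4 →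
    off ((S1 d).getD k 0) = (ex (d : ZMod 6) + (off ((S2 d).getD k 0)).1,
      ey (d : ZMod 6) + (off ((S2 d).getD k 0)).2) := by decide

lemma pw_sg (φ : ℤ → ℤ → V) (a b : ℤ) {d : ℕ} (hd : d < 6) {k : ℕ} (hk : k < 10) :
    pw φ a b ((sg1 d).getD k 0) =
      pw φ (a + ex (d : ZMod 6)) (b + ey (d : ZMod 6)) ((sg2 d).getD k 0) := by
  rw [pw_eq, pw_eq, off_sg d hd k hk]
  congr 1 <;> ring

lemma pw_S (φ : ℤ → ℤ → V) (a b : ℤ) {d : ℕ} (hd : d < 6) {k : ℕ} (hk : k < 4) :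
    pw φ a b ((S1 d).getD k 0) =
      pw φ (a + ex (d : ZMod 6)) (b + ey (d : ZMod 6)) ((S2 d).getD k 0) := by
  rw [pw_eq, pw_eq, off_S d hd k hk]
  congr 1 <;> ring

lemma sset_S (φ : ℤ → ℤ → V) (a b : ℤ) {d : ℕ} (hd : d < 6) :
    sset (pw φ a b) (S1 d) = sset (pw φ (a + ex (d : ZMod 6)) (b + ey (d : ZMod 6))) (S2 d) := by
  have h0 := pw_S φ a b hd (k := 0) (by norm_num)
  have h1 := pw_S φ a b hd (k := 1) (by norm_num)
  have h2 := pw_S φ a b hd (k := 2) (by norm_num)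
  have h3 := pw_S φ a b hd (k := 3) (by norm_num)
  simp only [S1, S2, List.getD_cons_zero, List.getD_cons_succ] at h0 h1 h2 h3
  ext y
  rw [mem_sset, mem_sset]
  simp only [S1, S2, List.mem_cons, List.not_mem_nil, or_false, exists_eq_or_imp,
    exists_eq_left, h0, h1, h2, h3]

lemma S1_inner : ∀ d, d < 6 → ∀ u ∈ S1 d, 12 ≤ u ∧ u < 19 := by decide
lemma S2_inner : ∀ d, d < 6 → ∀ u ∈ S2 d, 12 ≤ u ∧ u < 19 := by decide

end Pool.Agent.Helper24.U5P
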