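import Pool.Agent.U5C.Elim
import Pool.Agent.U5.Frame

/-!
# Window functionals

`pl H K w pos s` is the polynomial whose value at `N` is the number of proper `N`-colourings of
`H` (with the edges at `K` deleted) which satisfy the identifications `s` of the slots `pos`.
-/

set_option autoImplicit false

namespace Pool.Agent.Helper24.U5P

open SimpleGraph Finset Polynomial Pool.Agent.U5 Pool.Agent.U5C Pool.Agent.Helper36.BL

section poly

variable {V : Type} [Fintype V]

open scoped Classical in
lemma exists_poly_merge : ∀ (M : List (V × V)) (G : SimpleGraph V), ∃ p : ℝ[X], ∀ N : ℕ,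
    p.eval (N : ℝ) = (((cols G N).filter (fun c => ∀ e ∈ M, c e.1 = c e.2)).card : ℝ) := by
  intro M
  induction M with
  | nil =>
    intro G
    refine ⟨cp G, fun N => ?_⟩
    rw [cp_eval]
    unfold cnt
    congr 2
    ext c
    simp
  | cons e M ih =>
    intro G
    obtain ⟨a, b⟩ := e
    obtain ⟨p1, h1⟩ := ih G
    by_cases hab : a = b
    · refine ⟨p1, fun N => ?_⟩
      rw [h1]
      congr 2
      ext c
      simp [hab]
    · obtain ⟨p2, h2⟩ := ih (G ⊔ edge a b)
      refine ⟨p1 - p2, fun N => ?_⟩
      rw [eval_sub, h1, h2]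
      have h3 : ((cols G N).filter (fun c => ∀ e ∈ M, c e.1 = c e.2)).card
          = ((cols G N).filter (fun c => ∀ e ∈ (a, b) :: M, c e.1 = c e.2)).card
          + ((cols (G ⊔ edge a b) N).filter (fun c => ∀ e ∈ M, c e.1 = c e.2)).card := by
        rw [← Finset.card_union_of_disjoint]
        · congr 1
          ext c
          simp only [Finset.mem_filter, Finset.mem_union, mem_cols, List.mem_cons,
            forall_eq_or_imp, sup_adj, edge_adj]
          constructor
          · rintro ⟨h3, h4⟩
            by_cases h5 : c a = c b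
            · exact Or.inl ⟨h3, h5, h4⟩
            · refine Or.inr ⟨?_, h4⟩
              rintro x y (h6 | ⟨⟨rfl, rfl⟩ | ⟨rfl, rfl⟩, _⟩)
              · exact h3 x y h6
              · exact h5
              · exact fun h => h5 h.symm
          · rintro (⟨h3, _, h4⟩ | ⟨h3, h4⟩)
            · exact ⟨h3, h4⟩
            · exact ⟨fun x y h => h3 x y (Or.inl h), h4⟩
        · rw [Finset.disjoint_left]
          intro c hc hc'
          simp only [Finset.mem_filter, mem_cols, List.mem_cons,
            forall_eq_or_imp, sup_adj, edge_adj] at hc hc'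
          exact hc'.1 a b (Or.inr ⟨Or.inl ⟨rfl, rfl⟩, hab⟩) hc.2.1
      rw [h3]
      push_cast
      ring

/-- sum of a functional over the proper colourings of `H` minus the edges at `K` -/
noncomputable def Zs {A : Type} [AddCommMonoid A] (H : SimpleGraph V) (K : Finset V) (N : ℕ)
    (g : (V → Fin N) → A) : A :=
  ∑ c ∈ cols (dl H K) N, g c

lemma exists_pl (H : SimpleGraph V) (K : Finset V) (w : ℕ) (pos : ℕ → V) (s : ℕ) :
    ∃ p : ℝ[X], ∀ N : ℕ, p.eval (N : ℝ) = Zs H K N (fun c => lc ℝ w (c ∘ pos) s) := by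
  classical
  obtain ⟨p, hp⟩ := exists_poly_merge
    (((List.range (s + 1)).filter (fun k => s.testBit k)).map (fun k => (pos (k / w), pos (k % w))))
    (dl H K)
  refine ⟨p, fun N => ?_⟩
  rw [hp]
  unfold Zs lc
  rw [← Finset.sum_filter, Finset.sum_const, nsmul_eq_mul, mul_one]
  congr 2
  ext c
  simp only [Finset.mem_filter]
  refine and_congr_right fun _ => ?_
  unfold Sat
  constructor
  · intro h k hk
    have hks : k < s + 1 := by
      by_contra hc
      push Not at hc
      have : s < 2 ^ k := lt_of_lt_of_le (by omega) (Nat.lt_two_pow_self (n := k)).le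
      rw [Nat.testBit_lt_two_pow this] at hk
      exact absurd hk (by decide)
    exact h (pos (k / w), pos (k % w)) (by
      simp only [List.mem_map, List.mem_filter, List.mem_range]
      exact ⟨k, ⟨hks, hk⟩, rfl⟩)
  · intro h e he
    simp only [List.mem_map, List.mem_filter, List.mem_range] at he
    obtain ⟨k, ⟨_, hk⟩, rfl⟩ := he
    exact h k hk

/-- the polynomial of the window functional -/
noncomputable def pl (H : SimpleGraph V) (K : Finset V) (w : ℕ) (pos : ℕ → V) (s : ℕ) : ℝ[X] :=
  Classical.choose (exists_pl H K w pos s)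

lemma pl_eval (H : SimpleGraph V) (K : Finset V) (w : ℕ) (pos : ℕ → V) (s N : ℕ) :
    (pl H K w pos s).eval (N : ℝ) = Zs H K N (fun c => lc ℝ w (c ∘ pos) s) :=
  Classical.choose_spec (exists_pl H K w pos s) N

open scoped Classical in
/-- two functionals with the same satisfying colourings are equal -/
lemma pl_congr {H : SimpleGraph V} {K : Finset V} {w w' : ℕ} {pos pos' : ℕ → V} {s s' : ℕ}
    (h : ∀ (N : ℕ) (c : V → Fin N), c ∈ cols (dl H K) N →
      (Sat w s (c ∘ pos) ↔ Sat w' s' (c ∘ pos'))) :
    pl H K w pos s = pl H K w' pos' s' := by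
  apply poly_ext
  intro N
  rw [pl_eval, pl_eval]
  unfold Zs
  refine Finset.sum_congr rfl fun c hc => ?_
  have h2 : lc ℝ w (c ∘ pos) s = lc ℝ w' (c ∘ pos') s' := by
    unfold lc
    exact if_congr (h N c hc) rfl rfl
  exact h2

open scoped Classical in
lemma pl_idp (H : SimpleGraph V) (K : Finset V) (w : ℕ) (pos : ℕ → V) :
    pl H K w pos (idp w w) = cp (dl H K) := by
  apply poly_ext
  intro N
  rw [pl_eval, cp_eval]
  unfold Zs cnt
  rw [Finset.sum_congr rfl (fun c _ => ?_), Finset.sum_const, nsmul_eq_mul, mul_one]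
  have h2 : lc ℝ w (c ∘ pos) (idp w w) = 1 := by
    unfold lc
    exact if_pos (sat_idp w _)
  exact h2

/-- `0` if the pattern is in conflict with the adjacency matrix `adj` -/
lemma pl_conflict {H : SimpleGraph V} {K : Finset V} {w adj : ℕ} {pos : ℕ → V}
    (hadj : ∀ k, adj.testBit k = true → (dl H K).Adj (pos (k / w)) (pos (k % w))) {s : ℕ}
    (hs : Nat.land s adj ≠ 0) : pl H K w pos s = 0 := by
  apply poly_ext
  intro N
  rw [pl_eval, eval_zero]
  unfold Zs
  refine Finset.sum_eq_zero fun c hc => ?_
  unfold lc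
  rw [if_neg]
  refine not_sat_of_adj (adj := adj) ?_ hs
  intro k hk
  exact (mem_cols _ _ _).1 hc _ _ (hadj k hk)

/-! ### extension by one vertex -/

open scoped Classical in
lemma Zs_step {A : Type} [CommRing A] (H : SimpleGraph V) (K : Finset V) (x : V) (hx : x ∉ K)
    (N : ℕ) (g : (V → Fin N) → A) :
    (N : A) * Zs H K N g = Zs H (insert x K) N (fun c => ∑ α : Fin N,
      if (∀ y, (dl H K).Adj x y → α ≠ c y) then g (Function.update c x α) else 0) := by
  -- sum over pairs
  have hK : ∀ c : V → Fin N, ∀ α : Fin N, (c ∈ cols (dl H (insert x K)) N ∧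
      (∀ y, (dl H K).Adj x y → α ≠ c y)) ↔ Function.update c x α ∈ cols (dl H K) N := by
    intro c α
    rw [mem_cols, mem_cols]
    constructor
    · rintro ⟨h1, h2⟩ u v huv
      by_cases hu : u = x
      · subst hu
        have hv : v ≠ u := huv.ne'
        rw [Function.update_self, Function.update_of_ne hv]
        exact h2 v huv
      · by_cases hv : v = x
        · subst hv
          rw [Function.update_self, Function.update_of_ne hu]
          exact (h2 u huv.symm).symm
        · rw [Function.update_of_ne hu, Function.update_of_ne hv]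
          apply h1
          rw [dl_adj] at huv ⊢
          refine ⟨huv.1, ?_, ?_⟩
          · rw [Finset.mem_insert]; push Not; exact ⟨hu, huv.2.1⟩
          · rw [Finset.mem_insert]; push Not; exact ⟨hv, huv.2.2⟩
    · intro h
      constructor
      · intro u v huv
        rw [dl_adj, Finset.mem_insert, Finset.mem_insert] at huv
        push Not at huv
        have := h u v (by rw [dl_adj]; exact ⟨huv.1, huv.2.1.2, huv.2.2.2⟩)
        rwa [Function.update_of_ne huv.2.1.1, Function.update_of_ne huv.2.2.1] at this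
      · intro y hy
        have := h x y hy
        rwa [Function.update_self, Function.update_of_ne hy.ne'] at this
  have h1 : Zs H (insert x K) N (fun c => ∑ α : Fin N,
      if (∀ y, (dl H K).Adj x y → α ≠ c y) then g (Function.update c x α) else 0)
      = ∑ p : (V → Fin N) × Fin N, if Function.update p.1 x p.2 ∈ cols (dl H K) N then
          g (Function.update p.1 x p.2) else 0 := by
    unfold Zs
    rw [Fintype.sum_prod_type, ← Finset.sum_filter_add_sum_filter_not Finset.univ
      (fun c => c ∈ cols (dl H (insert x K)) N)]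
    have h2 : ∑ c ∈ Finset.univ.filter (fun c => ¬ c ∈ cols (dl H (insert x K)) N),
        ∑ α : Fin N, (if Function.update c x α ∈ cols (dl H K) N then
          g (Function.update c x α) else 0) = 0 := by
      refine Finset.sum_eq_zero fun c hc => Finset.sum_eq_zero fun α _ => ?_
      rw [Finset.mem_filter] at hc
      rw [if_neg]
      intro h3
      exact hc.2 ((hK c α).2 h3).1
    rw [h2, add_zero]
    have h4 : Finset.univ.filter (fun c => c ∈ cols (dl H (insert x K)) N)
        = cols (dl H (insert x K)) N := by ext c; simp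
    rw [h4]
    refine Finset.sum_congr rfl fun c hc => Finset.sum_congr rfl fun α _ => ?_
    refine if_congr ?_ rfl rfl
    rw [← hK c α]
    exact ⟨fun h => ⟨hc, h⟩, fun h => h.2⟩
  have h5 : ∑ p : (V → Fin N) × Fin N, (if Function.update p.1 x p.2 ∈ cols (dl H K) N then
          g (Function.update p.1 x p.2) else 0)
      = ∑ p : (V → Fin N) × Fin N, (if p.1 ∈ cols (dl H K) N then g p.1 else 0) := by
    refine Fintype.sum_bijective (fun p => (Function.update p.1 x p.2, p.1 x)) ?_ _ _ ?_
    · apply Function.Involutive.bijective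
      rintro ⟨c, α⟩
      simp
    · intro p
      rfl
  rw [h1, h5, Fintype.sum_prod_type]
  simp only [Finset.sum_const, Finset.card_univ, Fintype.card_fin]
  unfold Zs
  rw [← Finset.smul_sum, nsmul_eq_mul, Finset.mul_sum, ← Finset.sum_filter]
  have h6 : Finset.univ.filter (fun c => c ∈ cols (dl H K) N) = cols (dl H K) N := by
    ext c; simp
  rw [h6, Finset.mul_sum]

/-! ### extension by several vertices -/

/-- `vs` is a list of inner slots with their neighbours (later slots of the list are not counted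
as neighbours), over the deleted set `K0` -/
def VG (H : SimpleGraph V) (pos : ℕ → V) (K0 : Finset V) : List (ℕ × List ℕ) → Prop
  | [] => True
  | v :: vs => (∀ j, j ≠ v.1 → pos j ≠ pos v.1) ∧ pos v.1 ∉ K0 ∧ (∀ u ∈ vs, u.1 ≠ v.1) ∧
      (∀ y, (H.Adj (pos v.1) y ∧ y ∉ K0 ∧ ∀ u ∈ vs, y ≠ pos u.1) ↔ ∃ u ∈ v.2, y = pos u) ∧
      VG H pos K0 vs

open scoped Classical in
/-- the vertices of the slots of `vs` -/
noncomputable def vset (pos : ℕ → V) (K0 : Finset V) : List (ℕ × List ℕ) → Finset V
  | [] => K0
  | v :: vs => insert (pos v.1) (vset pos K0 vs)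

lemma mem_vset (pos : ℕ → V) (K0 : Finset V) (vs : List (ℕ × List ℕ)) (y : V) :
    y ∈ vset pos K0 vs ↔ y ∈ K0 ∨ ∃ u ∈ vs, y = pos u.1 := by
  classical
  induction vs with
  | nil => simp [vset]
  | cons v vs ih =>
    rw [vset, Finset.mem_insert, ih]
    simp only [List.mem_cons, exists_eq_or_imp]
    tauto

lemma Zs_ext {A : Type} [CommRing A] (H : SimpleGraph V) (pos : ℕ → V) (K0 : Finset V) (N : ℕ)
    (g : (ℕ → Fin N) → A) : ∀ (vs : List (ℕ × List ℕ)), VG H pos K0 vs →
    (N : A) ^ vs.length * Zs H K0 N (fun c => g (c ∘ pos)) =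
      Zs H (vset pos K0 vs) N (fun c => U5C.ext g vs (c ∘ pos)) := by
  classical
  intro vs
  induction vs with
  | nil => intro _; simp only [List.length_nil, pow_zero, one_mul]; rfl
  | cons v vs ih =>
    rintro ⟨h1, h2, h3, h4, h5⟩
    have hx : pos v.1 ∉ vset pos K0 vs := by
      rw [mem_vset]
      rintro (h | ⟨u, hu, h⟩)
      · exact h2 h
      · exact h1 u.1 (h3 u hu) h.symm
    rw [List.length_cons, pow_succ, mul_comm ((N : A) ^ vs.length), mul_assoc, ih h5,
      Zs_step H _ (pos v.1) hx N, vset]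
    unfold Zs
    refine Finset.sum_congr rfl fun c _ => ?_
    have e0 : U5C.ext g (v :: vs) (c ∘ pos) = ∑ x : Fin N, if (∀ u ∈ v.2, x ≠ (c ∘ pos) u) then
        U5C.ext g vs (Function.update (c ∘ pos) v.1 x) else 0 := by
      simp only [U5C.ext]
    refine Eq.trans ?_ e0.symm
    refine Finset.sum_congr rfl fun α _ => ?_
    have e1 : (Function.update c (pos v.1) α) ∘ pos = Function.update (c ∘ pos) v.1 α := by
      funext j
      by_cases hj : j = v.1
      · subst hj; simp
      · simp only [Function.comp]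
        rw [Function.update_of_ne (h1 j hj), Function.update_of_ne hj]
        rfl
    rw [e1]
    have e2 : (∀ y, (dl H (vset pos K0 vs)).Adj (pos v.1) y → α ≠ c y) ↔
        (∀ u ∈ v.2, α ≠ (c ∘ pos) u) := by
      constructor
      · intro h u hu
        have h6 := (h4 (pos u)).2 ⟨u, hu, rfl⟩
        apply h
        rw [dl_adj]
        refine ⟨h6.1, hx, ?_⟩
        rw [mem_vset]
        rintro (h7 | ⟨u', hu', h7⟩)
        · exact h6.2.1 h7
        · exact h6.2.2 u' hu' h7
      · intro h y hy
        rw [dl_adj] at hy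
        have h7 := hy.2.2
        rw [mem_vset] at h7
        push Not at h7
        obtain ⟨u, hu, rfl⟩ := (h4 y).1 ⟨hy.1, h7.1, h7.2⟩
        exact h u hu
    by_cases h6 : ∀ u ∈ v.2, α ≠ (c ∘ pos) u
    · rw [if_pos (e2.2 h6), if_pos h6]
    · rw [if_neg (fun h => h6 (e2.1 h)), if_neg h6]

end poly

section lin

variable {V : Type} [Fintype V] {K : Type}

lemma eval_lin {A B : Type} [CommRing A] [CommRing B] (f : A →+* B) (ι : K → A) (Λ : ℕ → A)
    (L : FL K) : f (lin ι Λ L) = lin (fun k => f (ι k)) (fun s => f (Λ s)) L := by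
  induction L with
  | nil => simp
  | cons s c L ih => simp [ih]

lemma eval_linT {A B : Type} [CommRing A] [CommRing B] (f : A →+* B) (ι : K → A) (Λ : ℕ → A)
    (T : Tr K) : f (linT ι Λ T) = linT (fun k => f (ι k)) (fun s => f (Λ s)) T := by
  induction T with
  | lf L => exact eval_lin f ι Λ L
  | nd l r ihl ihr => simp [ihl, ihr]

lemma lin_sum {A I : Type} [CommRing A] (ι : K → A) (S : Finset I) (Λ : I → ℕ → A) (L : FL K) :
    lin ι (fun s => ∑ i ∈ S, Λ i s) L = ∑ i ∈ S, lin ι (Λ i) L := by
  induction L with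
  | nil => simp
  | cons s c L ih => simp only [lin_cons, ih, Finset.mul_sum, Finset.sum_add_distrib]

lemma linT_sum {A I : Type} [CommRing A] (ι : K → A) (S : Finset I) (Λ : I → ℕ → A) (T : Tr K) :
    linT ι (fun s => ∑ i ∈ S, Λ i s) T = ∑ i ∈ S, linT ι (Λ i) T := by
  induction T with
  | lf L => exact lin_sum ι S Λ L
  | nd l r ihl ihr => simp only [linT_nd, ihl, ihr, Finset.sum_add_distrib]

lemma linT_congr' {A : Type} [CommRing A] {ι : K → A} {Λ Λ' : ℕ → A} (h : ∀ s, Λ s = Λ' s)
    (T : Tr K) : linT ι Λ T = linT ι Λ' T := by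
  have : Λ = Λ' := funext h
  rw [this]

variable {neg mq : K → K} {add : K → K → K}

/-- **expansion of a content**, as an identity of polynomials -/
theorem expand_poly (ι : K → ℝ[X]) (hI : Ip neg mq add ι (X : ℝ[X])) {w R C : ℕ}
    (h : PW w R C) (H : SimpleGraph V) (pos : ℕ → V) (K0 : Finset V) (p n : ℕ) {T0 : Tr K}
    (hT0 : AllT (Eqv w) T0) {vs : List (ℕ × List ℕ)} {adj : ℕ} (hvs : VOK w vs adj)
    (hg : VG H pos K0 vs)
    (hadj : ∀ k, adj.testBit k = true →
      (dl H (vset pos K0 vs)).Adj (pos (k / w)) (pos (k % w))) :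
    (X : ℝ[X]) ^ vs.length * linT ι (pl H K0 w pos) T0 =
      linT ι (pl H (vset pos K0 vs) w pos) (expand neg mq add w R C p n T0 vs adj) := by
  apply poly_ext
  intro N
  have e1 : ∀ (K' : Finset V) (T : Tr K), (linT ι (pl H K' w pos) T).eval (N : ℝ) =
      Zs H K' N (fun c => linT (fun k => (ι k).eval (N : ℝ)) (lc ℝ w (c ∘ pos)) T) := by
    intro K' T
    have h1 := eval_linT (evalRingHom (N : ℝ)) ι (pl H K' w pos) T
    simp only [coe_evalRingHom] at h1
    rw [h1]
    unfold Zs
    rw [← linT_sum]
    refine linT_congr' (fun s => ?_) T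
    exact pl_eval H K' w pos s N
  rw [eval_mul, eval_pow, eval_X, e1, e1]
  have hI' : Ip neg mq add (fun k => (ι k).eval (N : ℝ)) (N : ℝ) :=
    ⟨fun c => by rw [hI.neg, eval_neg], fun c => by rw [hI.mq, eval_mul, eval_X],
      fun c d => by rw [hI.add, eval_add]⟩
  have h2 := Zs_ext H pos K0 N
    (fun d : ℕ → Fin N => linT (fun k => (ι k).eval (N : ℝ)) (lc ℝ w d) T0) vs hg
  rw [h2]
  unfold Zs
  refine Finset.sum_congr rfl fun c hc => ?_
  refine (linT_expand _ h hI' p n hT0 hvs ?_).symm
  intro k hk
  exact (mem_cols _ _ _).1 hc _ _ (hadj k hk)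

/-- **expansion of a content**, values at `q` -/
theorem expand_eval (ι : K → ℝ[X]) (hI : Ip neg mq add ι (X : ℝ[X])) {w R C : ℕ}
    (h : PW w R C) (H : SimpleGraph V) (pos : ℕ → V) (K0 : Finset V) (p n : ℕ) {T0 : Tr K}
    (hT0 : AllT (Eqv w) T0) {vs : List (ℕ × List ℕ)} {adj : ℕ} (hvs : VOK w vs adj)
    (hg : VG H pos K0 vs)
    (hadj : ∀ k, adj.testBit k = true →
      (dl H (vset pos K0 vs)).Adj (pos (k / w)) (pos (k % w))) (q : ℝ) :
    q ^ vs.length * linT (fun k => (ι k).eval q) (fun s => (pl H K0 w pos s).eval q) T0 =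
      linT (fun k => (ι k).eval q) (fun s => (pl H (vset pos K0 vs) w pos s).eval q)
        (expand neg mq add w R C p n T0 vs adj) := by
  have h1 := congrArg (fun p : ℝ[X] => p.eval q)
    (expand_poly ι hI h H pos K0 p n hT0 hvs hg hadj)
  simp only [eval_mul, eval_pow, eval_X] at h1
  have e1 : ∀ (K' : Finset V) (T : Tr K), (linT ι (pl H K' w pos) T).eval q =
      linT (fun k => (ι k).eval q) (fun s => (pl H K' w pos s).eval q) T := by
    intro K' T
    have h1 := eval_linT (evalRingHom q) ι (pl H K' w pos) T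
    simpa only [coe_evalRingHom] using h1
  rwa [e1, e1] at h1

end lin

end Pool.Agent.Helper24.U5P
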