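import Pool.Agent.Helper24.U5P.Win
import Pool.Agent.Helper42.U5.Dev

/-!
# Windows of the developing map
-/

set_option autoImplicit false

namespace Pool.Agent.Helper24.U5P

open SimpleGraph Finset Pool.Agent.U5 Pool.Agent.U5C

variable {V : Type}

/-- closed neighbourhood of a flat vertex with flat neighbours, with its ring -/
structure HexP (H : SimpleGraph V) (c : V) (h rc rm : ZMod 6 → V) : Prop where
  h_inj : Function.Injective h
  h_ne : ∀ i, h i ≠ c
  rc_ne : ∀ i, rc i ≠ c
  rm_ne : ∀ i, rm i ≠ c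
  rc_h : ∀ i k, rc i ≠ h k
  rm_h : ∀ i k, rm i ≠ h k
  adj_c : ∀ y, H.Adj c y ↔ ∃ i, y = h i
  adj_h : ∀ i y, H.Adj (h i) y ↔ y = rc i ∨ y = rm i ∨ y = h (i + 1) ∨ y = c ∨ y = h (i - 1) ∨
    y = rm (i - 1)
  ring1 : ∀ i, H.Adj (rc i) (rm i)
  ring2 : ∀ i, H.Adj (rm i) (rc (i + 1))
  ne1 : ∀ i, rc i ≠ rm i
  ne2 : ∀ i, rc i ≠ rm (i - 1)
  ne3 : ∀ i, rm i ≠ rm (i - 1)

lemma exists6 (p : ZMod 6 → Prop) (i : ZMod 6) : (∃ j, p j) ↔
    p i ∨ p (i + 1) ∨ p (i + 2) ∨ p (i + 3) ∨ p (i + 4) ∨ p (i + 5) := by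
  constructor
  · rintro ⟨j, hj⟩
    have key : ∀ x : ZMod 6, x = 0 ∨ x = 1 ∨ x = 2 ∨ x = 3 ∨ x = 4 ∨ x = 5 := by decide
    have e : j = i + (j - i) := by ring
    rcases key (j - i) with h | h | h | h | h | h
    · rw [h, add_zero] at e; rw [e] at hj; exact Or.inl hj
    · rw [h] at e; rw [e] at hj; exact Or.inr (Or.inl hj)
    · rw [h] at e; rw [e] at hj; exact Or.inr (Or.inr (Or.inl hj))
    · rw [h] at e; rw [e] at hj; exact Or.inr (Or.inr (Or.inr (Or.inl hj)))
    · rw [h] at e; rw [e] at hj; exact Or.inr (Or.inr (Or.inr (Or.inr (Or.inl hj))))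
    · rw [h] at e; rw [e] at hj; exact Or.inr (Or.inr (Or.inr (Or.inr (Or.inr hj))))
  · rintro (h | h | h | h | h | h)
    · exact ⟨_, h⟩
    · exact ⟨_, h⟩
    · exact ⟨_, h⟩
    · exact ⟨_, h⟩
    · exact ⟨_, h⟩
    · exact ⟨_, h⟩

lemma e_three (i : ZMod 6) : ex i + ex (i + 3) = 0 ∧ ey i + ey (i + 3) = 0 := by
  revert i; decide

lemma e_two (i : ZMod 6) : ex i + ex (i + 2) = ex (i + 1) ∧ ey i + ey (i + 2) = ey (i + 1) := by
  revert i; decide

lemma e_four (i : ZMod 6) : ex i + ex (i + 4) = ex (i - 1) ∧ ey i + ey (i + 4) = ey (i - 1) := by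
  revert i; decide

lemma e_five (i : ZMod 6) : ex i + ex (i + 5) = ex (i - 1) + ex (i - 1 + 1) ∧
    ey i + ey (i + 5) = ey (i - 1) + ey (i - 1 + 1) := by
  revert i; decide

/-- rim, corners and middles of the ring around `(a, b)` -/
def fh (φ : ℤ → ℤ → V) (a b : ℤ) (i : ZMod 6) : V := φ (a + ex i) (b + ey i)
def frc (φ : ℤ → ℤ → V) (a b : ℤ) (i : ZMod 6) : V := φ (a + (ex i + ex i)) (b + (ey i + ey i))
def frm (φ : ℤ → ℤ → V) (a b : ℤ) (i : ZMod 6) : V :=
  φ (a + (ex i + ex (i + 1))) (b + (ey i + ey (i + 1)))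

theorem hexP_of_loc {H : SimpleGraph V} {φ : ℤ → ℤ → V} {a b : ℤ} (h0 : Loc H φ a b)
    (h1 : ∀ i, Loc H φ (a + ex i) (b + ey i)) :
    HexP H (φ a b) (fh φ a b) (frc φ a b) (frm φ a b) := by
  -- labels at the rim vertices
  set m : ZMod 6 → ZMod 6 → V := fun i j => φ (a + ex i + ex j) (b + ey i + ey j) with hm
  have L0 : Lab H (φ a b) (fh φ a b) := h0
  have L : ∀ i, Lab H (fh φ a b i) (m i) := h1
  have m0 : ∀ i, m i i = frc φ a b i := by
    intro i; show φ _ _ = φ _ _; rw [add_assoc, add_assoc]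
  have m1 : ∀ i, m i (i + 1) = frm φ a b i := by
    intro i; show φ _ _ = φ _ _; rw [add_assoc, add_assoc]
  have m2 : ∀ i, m i (i + 2) = fh φ a b (i + 1) := by
    intro i; show φ _ _ = φ _ _; rw [add_assoc, add_assoc, (e_two i).1, (e_two i).2]
  have m3 : ∀ i, m i (i + 3) = φ a b := by
    intro i; show φ _ _ = φ _ _; rw [add_assoc, add_assoc, (e_three i).1, (e_three i).2, add_zero,
      add_zero]
  have m4 : ∀ i, m i (i + 4) = fh φ a b (i - 1) := by
    intro i; show φ _ _ = φ _ _; rw [add_assoc, add_assoc, (e_four i).1, (e_four i).2]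
  have m5 : ∀ i, m i (i + 5) = frm φ a b (i - 1) := by
    intro i; show φ _ _ = φ _ _; rw [add_assoc, add_assoc, (e_five i).1, (e_five i).2]
  have mne : ∀ i x y : ZMod 6, x ≠ y → m i (i + x) ≠ m i (i + y) := by
    intro i x y hxy h
    exact hxy (add_left_cancel ((L i).inj h))
  have a0 : ∀ i, H.Adj (fh φ a b i) (frc φ a b i) := fun i => ((L i).adj _).2 ⟨i, (m0 i).symm⟩
  have a1 : ∀ i, H.Adj (fh φ a b i) (frm φ a b i) := fun i => ((L i).adj _).2 ⟨i + 1, (m1 i).symm⟩
  have hh : ∀ i k, H.Adj (fh φ a b i) (fh φ a b k) → k = i + 1 ∨ k = i - 1 :=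
    fun i k h => (L0.cyc i k).1 h
  have rch : ∀ i k, frc φ a b i ≠ fh φ a b k := by
    intro i k h
    have h2 := a0 i
    rw [h] at h2
    rcases hh i k h2 with h3 | h3
    · rw [h3, ← m2, ← m0] at h
      have := mne i 0 2 (by decide)
      rw [add_zero] at this
      exact this h
    · rw [h3, ← m4, ← m0] at h
      have := mne i 0 4 (by decide)
      rw [add_zero] at this
      exact this h
  have rmh : ∀ i k, frm φ a b i ≠ fh φ a b k := by
    intro i k h
    have h2 := a1 i
    rw [h] at h2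
    rcases hh i k h2 with h3 | h3
    · rw [h3, ← m2, ← m1] at h
      exact mne i 1 2 (by decide) h
    · rw [h3, ← m4, ← m1] at h
      exact mne i 1 4 (by decide) h
  refine ⟨L0.inj, ?_, ?_, ?_, rch, rmh, L0.adj, ?_, ?_, ?_, ?_, ?_, ?_⟩
  · intro i h
    have := (L0.adj (fh φ a b i)).2 ⟨i, rfl⟩
    rw [h] at this
    exact this.ne rfl
  · intro i h
    rw [← m3 i, ← m0] at h
    have := mne i 0 3 (by decide)
    rw [add_zero] at this
    exact this h
  · intro i h
    rw [← m3 i, ← m1] at h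
    exact mne i 1 3 (by decide) h
  · intro i y
    rw [(L i).adj y, exists6 _ i, m0, m1, m2, m3, m4, m5]
  · intro i
    rw [← m0, ← m1, (L i).cyc]
    exact Or.inl rfl
  · intro i
    have e1 : frm φ a b i = m (i + 1) (i + 1 - 1) := by
      have := m5 (i + 1)
      rw [show i + 1 + 5 = i + 1 - 1 from by
        rw [sub_eq_add_neg, show (5 : ZMod 6) = -1 from by decide]] at this
      rw [this]; congr 1; ring
    rw [e1, ← m0, (L (i + 1)).cyc]
    left; ring
  · intro i h
    rw [← m0, ← m1] at h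
    have := mne i 0 1 (by decide)
    rw [add_zero] at this
    exact this h
  · intro i h
    rw [← m0, ← m5] at h
    have := mne i 0 5 (by decide)
    rw [add_zero] at this
    exact this h
  · intro i h
    rw [← m1, ← m5] at h
    exact mne i 1 5 (by decide) h

/-- the vertices of the slots -/
def slotV (c : V) (h rc rm : ZMod 6 → V) : ℕ → V
  | 0 => rc 0
  | 1 => rm 0
  | 2 => rc 1
  | 3 => rm 1
  | 4 => rc 2
  | 5 => rm 2
  | 6 => rc 3
  | 7 => rm 3
  | 8 => rc 4
  | 9 => rm 4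
  | 10 => rc 5
  | 11 => rm 5
  | 12 => h 0
  | 13 => h 1
  | 14 => h 2
  | 15 => h 3
  | 16 => h 4
  | 17 => h 5
  | 18 => c
  | _ => rc 0

theorem HexP.win {H : SimpleGraph V} {c : V} {h rc rm : ZMod 6 → V} (hx : HexP H c h rc rm) :
    Win H (slotV c h rc rm) := by
  have hh : ∀ i j : ZMod 6, i ≠ j → h i ≠ h j := fun i j hij he => hij (hx.h_inj he)
  have hc' : ∀ i, c ≠ h i := fun i => (hx.h_ne i).symm
  refine ⟨?_, ?_, ?_⟩
  · intro v hv1 hv2 j hj
    rcases lt_or_ge j 19 with hj2 | hj2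
    · interval_cases v <;> interval_cases j <;>
        first
        | exact absurd rfl hj
        | exact hx.rc_h _ _
        | exact hx.rm_h _ _
        | exact hx.rc_ne _
        | exact hx.rm_ne _
        | exact hx.h_ne _
        | exact hc' _
        | exact hh _ _ (by decide)
    · obtain ⟨t, rfl⟩ : ∃ t, j = 19 + t := ⟨j - 19, by omega⟩
      have e : slotV c h rc rm (19 + t) = rc 0 := by
        rw [show 19 + t = t + 19 from by ring]; rfl
      rw [e]
      interval_cases v <;>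
        first
        | exact hx.rc_h _ _
        | exact hx.rc_ne _
  · intro v hv1 hv2 y
    have hc : H.Adj c y ↔ ∃ u ∈ HN 18, y = slotV c h rc rm u := by
      rw [hx.adj_c, exists6 _ 0]
      simp only [HN, List.mem_cons, List.not_mem_nil, or_false, exists_eq_or_imp, exists_eq_left,
        slotV]
      simp only [zero_add]
    interval_cases v
    · show H.Adj (h 0) y ↔ _
      rw [hx.adj_h]
      simp only [HN, List.mem_cons, List.not_mem_nil, or_false, exists_eq_or_imp, exists_eq_left,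
        slotV]
      rw [show (0 : ZMod 6) + 1 = 1 from by decide, show (0 : ZMod 6) - 1 = 5 from by decide]
      tauto
    · show H.Adj (h 1) y ↔ _
      rw [hx.adj_h]
      simp only [HN, List.mem_cons, List.not_mem_nil, or_false, exists_eq_or_imp, exists_eq_left,
        slotV]
      rw [show (1 : ZMod 6) + 1 = 2 from by decide, show (1 : ZMod 6) - 1 = 0 from by decide]
      tauto
    · show H.Adj (h 2) y ↔ _
      rw [hx.adj_h]
      simp only [HN, List.mem_cons, List.not_mem_nil, or_false, exists_eq_or_imp, exists_eq_left,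
        slotV]
      rw [show (2 : ZMod 6) + 1 = 3 from by decide, show (2 : ZMod 6) - 1 = 1 from by decide]
      tauto
    · show H.Adj (h 3) y ↔ _
      rw [hx.adj_h]
      simp only [HN, List.mem_cons, List.not_mem_nil, or_false, exists_eq_or_imp, exists_eq_left,
        slotV]
      rw [show (3 : ZMod 6) + 1 = 4 from by decide, show (3 : ZMod 6) - 1 = 2 from by decide]
      tauto
    · show H.Adj (h 4) y ↔ _
      rw [hx.adj_h]
      simp only [HN, List.mem_cons, List.not_mem_nil, or_false, exists_eq_or_imp, exists_eq_left,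
        slotV]
      rw [show (4 : ZMod 6) + 1 = 5 from by decide, show (4 : ZMod 6) - 1 = 3 from by decide]
      tauto
    · show H.Adj (h 5) y ↔ _
      rw [hx.adj_h]
      simp only [HN, List.mem_cons, List.not_mem_nil, or_false, exists_eq_or_imp, exists_eq_left,
        slotV]
      rw [show (5 : ZMod 6) + 1 = 0 from by decide, show (5 : ZMod 6) - 1 = 4 from by decide]
      tauto
    · exact hc
  · intro i hi
    have r1 := hx.ring1
    have r2 := hx.ring2
    interval_cases i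
    · exact r1 0
    · exact r2 0
    · exact r1 1
    · exact r2 1
    · exact r1 2
    · exact r2 2
    · exact r1 3
    · exact r2 3
    · exact r1 4
    · exact r2 4
    · exact r1 5
    · exact r2 5

/-- the window slots of the map `φ` around `(a, b)` -/
def pw (φ : ℤ → ℤ → V) (a b : ℤ) : ℕ → V :=
  slotV (φ a b) (fh φ a b) (frc φ a b) (frm φ a b)

/-- `φ` is a local isomorphism on the hexagon of radius two -/
def HexLoc (H : SimpleGraph V) (φ : ℤ → ℤ → V) : Prop :=
  ∀ a b : ℤ, |a| ≤ 2 → |b| ≤ 2 → |a + b| ≤ 2 → Loc H φ a b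

/-- the centre and its neighbours -/
def Ctr (a b : ℤ) : Prop := |a| ≤ 1 ∧ |b| ≤ 1 ∧ |a + b| ≤ 1

lemma e_bd (i : ZMod 6) : |ex i| ≤ 1 ∧ |ey i| ≤ 1 ∧ |ex i + ey i| ≤ 1 := by
  revert i; decide

theorem HexLoc.win {H : SimpleGraph V} {φ : ℤ → ℤ → V} (hf : HexLoc H φ) {a b : ℤ}
    (hab : Ctr a b) : Win H (pw φ a b) := by
  apply HexP.win
  obtain ⟨h1, h2, h3⟩ := hab
  apply hexP_of_loc
  · apply hf <;> linarith
  · intro i
    obtain ⟨g1, g2, g3⟩ := e_bd i
    apply hf
    · calc |a + ex i| ≤ |a| + |ex i| := abs_add_le _ _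
        _ ≤ 2 := by linarith
    · calc |b + ey i| ≤ |b| + |ey i| := abs_add_le _ _
        _ ≤ 2 := by linarith
    · calc |a + ex i + (b + ey i)| = |(a + b) + (ex i + ey i)| := by ring_nf
        _ ≤ |a + b| + |ex i + ey i| := abs_add_le _ _
        _ ≤ 2 := by linarith

end Pool.Agent.Helper24.U5P
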