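import Pool.Agent.Helper24.U5P.Sup

/-!
# The averaged window functionals satisfy the hypotheses of `near5`
-/

set_option autoImplicit false

namespace Pool.Agent.Helper24.U5P

open SimpleGraph Finset Polynomial Pool.Agent.U5 Pool.Agent.U5C Pool.Agent.Helper36.BL
open Pool.Agent.Helper1.PG (Fill)

/-- interpretation of the coefficients -/
noncomputable def iX (c : ℤ[X]) : ℝ[X] := c.map (Int.castRingHom ℝ)

lemma iX_eval (q : ℝ) (c : ℤ[X]) : (iX c).eval q = aeval q c := by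
  unfold iX
  rw [aeval_def, eval_map]
  rfl

lemma iX_fun (q : ℝ) : (fun c : ℤ[X] => (iX c).eval q) = fun c : ℤ[X] => aeval q c :=
  funext (iX_eval q)

lemma ipiX : Ip negX mqX addX iX (X : ℝ[X]) := by
  refine ⟨?_, ?_, ?_⟩
  · intro c; simp [negX, iX]
  · intro c; simp [mqX, iX]
  · intro c d; simp [addX, iX]

lemma adjR_eq : adjR = adj0 := by decide +kernel

variable {V : Type}

/-! ### windows of the symmetric images -/

lemma Kw_eq {pos pos' : ℕ → V}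
    (h1 : ∀ u, 12 ≤ u → u < 19 → ∃ v, 12 ≤ v ∧ v < 19 ∧ pos u = pos' v)
    (h2 : ∀ u, 12 ≤ u → u < 19 → ∃ v, 12 ≤ v ∧ v < 19 ∧ pos' u = pos v) : Kw pos = Kw pos' := by
  ext y
  rw [mem_Kw, mem_Kw]
  constructor
  · rintro ⟨u, a, b, rfl⟩
    obtain ⟨v, c, d, e⟩ := h1 u a b
    exact ⟨v, c, d, e⟩
  · rintro ⟨u, a, b, rfl⟩
    obtain ⟨v, c, d, e⟩ := h2 u a b
    exact ⟨v, c, d, e⟩

lemma rhoS_inner : ∀ u, 12 ≤ u → u < 19 → (12 ≤ rhoS u ∧ rhoS u < 19) ∧
    ∃ v < 19, 12 ≤ v ∧ rhoS v = u := by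
  intro u h1 h2
  interval_cases u <;> decide

lemma muS_inner : ∀ u, 12 ≤ u → u < 19 → (12 ≤ muS u ∧ muS u < 19) ∧
    ∃ v < 19, 12 ≤ v ∧ muS v = u := by
  intro u h1 h2
  interval_cases u <;> decide

lemma Kw_rot (φ : ℤ → ℤ → V) (a b : ℤ) : Kw (pw (rot φ) a b) = Kw (pw φ (-b) (a + b)) := by
  apply Kw_eq
  · intro u h1 h2
    exact ⟨rhoS u, (rhoS_inner u h1 h2).1.1, (rhoS_inner u h1 h2).1.2, pw_rot φ a b u⟩
  · intro u h1 h2
    obtain ⟨v, h3, h4, h5⟩ := (rhoS_inner u h1 h2).2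
    refine ⟨v, h4, h3, ?_⟩
    rw [pw_rot, h5]

lemma Kw_mir (φ : ℤ → ℤ → V) (a b : ℤ) : Kw (pw (mir φ) a b) = Kw (pw φ (a + b) (-b)) := by
  apply Kw_eq
  · intro u h1 h2
    exact ⟨muS u, (muS_inner u h1 h2).1.1, (muS_inner u h1 h2).1.2, pw_mir φ a b u⟩
  · intro u h1 h2
    obtain ⟨v, h3, h4, h5⟩ := (muS_inner u h1 h2).2
    refine ⟨v, h4, h3, ?_⟩
    rw [pw_mir, h5]

lemma Kw_rot0 (φ : ℤ → ℤ → V) : Kw (pw (rot φ) 0 0) = Kw (pw φ 0 0) := by
  rw [Kw_rot, neg_zero, add_zero]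

lemma Kw_mir0 (φ : ℤ → ℤ → V) : Kw (pw (mir φ) 0 0) = Kw (pw φ 0 0) := by
  rw [Kw_mir, neg_zero, add_zero]

lemma pw_rot0 (φ : ℤ → ℤ → V) (j : ℕ) : pw (rot φ) 0 0 j = pw φ 0 0 (rhoS j) := by
  rw [pw_rot, neg_zero, add_zero]

lemma pw_mir0 (φ : ℤ → ℤ → V) (j : ℕ) : pw (mir φ) 0 0 j = pw φ 0 0 (muS j) := by
  rw [pw_mir, neg_zero, add_zero]

lemma pw_rotk (k : ℕ) (φ : ℤ → ℤ → V) (j : ℕ) :
    pw (rot^[k] φ) 0 0 j = pw φ 0 0 (rhoS^[k] j) := by
  induction k generalizing φ with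
  | zero => rfl
  | succ k ih => rw [Function.iterate_succ_apply, ih, pw_rot0, Function.iterate_succ_apply']

lemma Kw_rotk (k : ℕ) (φ : ℤ → ℤ → V) : Kw (pw (rot^[k] φ) 0 0) = Kw (pw φ 0 0) := by
  induction k generalizing φ with
  | zero => rfl
  | succ k ih => rw [Function.iterate_succ_apply, ih, Kw_rot0]

lemma avg_rotk (k : ℕ) (F : (ℤ → ℤ → V) → ℝ) (φ : ℤ → ℤ → V) :
    avg (fun ψ => F (rot^[k] ψ)) φ = avg F φ := by
  induction k with
  | zero => rfl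
  | succ k ih =>
    simp only [Function.iterate_succ_apply]
    rw [avg_rot (fun ψ => F (rot^[k] ψ)) φ, ih]

lemma avg_inv {F : (ℤ → ℤ → V) → ℝ} (h1 : ∀ ψ, F (rot ψ) = F ψ) (h2 : ∀ ψ, F (mir ψ) = F ψ)
    (φ : ℤ → ℤ → V) : avg F φ = 12 * F φ := by
  unfold avg
  simp only [h1, h2]
  ring

section fin

variable [Fintype V]

/-- the averaged functional of the centre window -/
noncomputable def Ph0 (H : SimpleGraph V) (φ : ℤ → ℤ → V) (q : ℝ) (s : ℕ) : ℝ :=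
  avg (fun ψ => Fw H (pw ψ 0 0) q s) φ

/-- the averaged functional of the outer windows -/
noncomputable def Ph1 (H : SimpleGraph V) (φ : ℤ → ℤ → V) (q : ℝ) (s : ℕ) : ℝ :=
  avg (fun ψ => Fw H (pw ψ 1 0) q s) φ

lemma LT_Ph0 (H : SimpleGraph V) (φ : ℤ → ℤ → V) (q : ℝ) (T : Tr ℤ[X]) :
    LT q (Ph0 H φ q) T = avg (fun ψ => LT q (Fw H (pw ψ 0 0) q) T) φ :=
  linT_avg _ (fun ψ => Fw H (pw ψ 0 0) q) φ T

lemma LT_Ph1 (H : SimpleGraph V) (φ : ℤ → ℤ → V) (q : ℝ) (T : Tr ℤ[X]) :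
    LT q (Ph1 H φ q) T = avg (fun ψ => LT q (Fw H (pw ψ 1 0) q) T) φ :=
  linT_avg _ (fun ψ => Fw H (pw ψ 1 0) q) φ T

/-- **Expansion in a window**, for the certificate program. -/
theorem Win.expandX {R C : ℕ} (h : PW 19 R C) {H : SimpleGraph V} {pos : ℕ → V}
    (hW : Win H pos) {S : List ℕ} (hS : ∀ u ∈ S, 12 ≤ u ∧ u < 19) (p n : ℕ) {T0 : Tr ℤ[X]}
    (hT0 : AllT (Eqv 19) T0) {vs : List (ℕ × List ℕ)} {a0 : ℕ} (h0 : a0 = adj0)
    (hvs : VOK 19 vs a0)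
    (hg : vgb S vs = true) (hall : ∀ x, (x ∈ S ∨ ∃ u ∈ vs, x = u.1) ↔ x ∈ inn) (q : ℝ) :
    q ^ vs.length * LT q (FS H pos S q) T0 =
      LT q (Fw H pos q) (Pool.Agent.U5C.expand negX mqX addX 19 R C p n T0 vs a0) := by
  rw [h0, ← adjR_eq] at hvs ⊢
  have h1 := hW.expand iX ipiX h hS p n hT0 hvs hg hall q
  rw [iX_fun] at h1
  exact h1

/-! ### the expansion of the flat window -/

theorem LT_F7_win {R C : ℕ} (h : PW 19 R C) (p n : ℕ) {a0 : ℕ} (h0 : a0 = adj0)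
    (ha : VOK 19 vs7 a0) {H : SimpleGraph V} {pos : ℕ → V} (hW : Win H pos) (q : ℝ) :
    LT q (Fw H pos q) (F7X R C p n a0) = q ^ 7 * P q H := by
  have h1 := hW.expandX h (S := []) (by simp) p n
    (T0 := (Tr.emp ℤ[X] n).ins addX (idp 19 19) (cstX 1) 0)
    (allT_ins _ eqv_idp (allT_emp _ _) _) h0 ha (by decide) (by
      intro x
      simp only [List.not_mem_nil, false_or, vs7, List.mem_cons, or_false, exists_eq_or_imp,
        exists_eq_left, inn]) q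
  have h2 : LT q (FS H pos [] q) ((Tr.emp ℤ[X] n).ins addX (idp 19 19) (cstX 1) 0) = P q H := by
    have h3 := linT_ins (fun c : ℤ[X] => aeval q c) (FS H pos [] q) (ipq q) (idp 19 19) (cstX 1)
      (Tr.emp ℤ[X] n) 0
    rw [linT_emp, zero_add] at h3
    show linT (fun c : ℤ[X] => aeval q c) (FS H pos [] q) _ = _
    rw [h3, FS_nil_idp]
    simp [cstX]
  rw [h2] at h1
  exact h1.symm

theorem LT_F7 {R C : ℕ} (h : PW 19 R C) (p n : ℕ) {a0 : ℕ} (h0 : a0 = adj0)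
    (ha : VOK 19 vs7 a0) {H : SimpleGraph V} {φ : ℤ → ℤ → V} (hφ : HexLoc H φ) (q : ℝ) :
    LT q (Ph0 H φ q) (F7X R C p n a0) = 12 * (q ^ 7 * P q H) := by
  rw [LT_Ph0, avg_congr hφ (G := fun _ => q ^ 7 * P q H), avg_const]
  intro ψ hψ
  exact LT_F7_win h p n h0 ha (hψ.win (by unfold Ctr; norm_num)) q

theorem Ph0_idp (H : SimpleGraph V) (φ : ℤ → ℤ → V) (q : ℝ) :
    Ph0 H φ q (idp 19 19) = 12 * P q (dl H (Kw (pw φ 0 0))) := by
  unfold Ph0
  simp only [Fw_idp]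
  exact avg_inv (F := fun ψ => P q (dl H (Kw (pw ψ 0 0)))) (fun ψ => by
    show P q (dl H (Kw (pw (rot ψ) 0 0))) = _; rw [Kw_rot0]) (fun ψ => by
    show P q (dl H (Kw (pw (mir ψ) 0 0))) = _; rw [Kw_mir0]) φ

/-! ### invariance -/

lemma Fw_relab {R C : ℕ} (h : PW 19 R C) {π : List ℕ} (hπ : ∀ x ∈ π, x < 19) {s : ℕ}
    (hs : Eqv 19 s) (hr : RC s) {H : SimpleGraph V} {pos pos' : ℕ → V}
    (hpos : ∀ i < 12, pos (getN π i) = pos' i) (hK : Kw pos = Kw pos') (q : ℝ) :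
    Fw H pos q (relab 19 R C π scR s) = Fw H pos' q s := by
  unfold Fw
  rw [hK]
  congr 1
  apply pl_congr
  intro N c _
  apply sat_relab_ring h hπ hs hr
  intro i hi
  show c (pos (getN π i)) = c (pos' i)
  rw [hpos i hi]

/-- `π` is realised by the symmetry `g` at the window `(a, b)` -/
structure Sy (V : Type) (a b : ℤ) (π : List ℕ) (g : (ℤ → ℤ → V) → (ℤ → ℤ → V)) : Prop where
  lt : ∀ x ∈ π, x < 19
  pos : ∀ ψ, ∀ i < 12, pw ψ a b (getN π i) = pw (g ψ) a b i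
  ker : ∀ ψ, Kw (pw ψ a b) = Kw (pw (g ψ) a b)
  inv : ∀ (F : (ℤ → ℤ → V) → ℝ) (φ : ℤ → ℤ → V), avg (fun ψ => F (g ψ)) φ = avg F φ

lemma Sy.avg {R C : ℕ} (h : PW 19 R C) {a b : ℤ} {π : List ℕ}
    {g : (ℤ → ℤ → V) → (ℤ → ℤ → V)} (hg : Sy V a b π g) {s : ℕ} (hs : Eqv 19 s) (hr : RC s)
    (H : SimpleGraph V) (φ : ℤ → ℤ → V) (q : ℝ) :
    U5P.avg (fun ψ => Fw H (pw ψ a b) q (relab 19 R C π scR s)) φ =
      U5P.avg (fun ψ => Fw H (pw ψ a b) q s) φ := by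
  rw [← hg.inv (fun ψ => Fw H (pw ψ a b) q s) φ]
  congr 1
  funext ψ
  exact Fw_relab h hg.lt hs hr (hg.pos ψ) (hg.ker ψ) q

lemma gs0_cases : ∀ π ∈ gs0, (∀ x ∈ π, x < 19) ∧
    ((∃ k < 6, ∀ i < 12, getN π i = rhoS^[k] i) ∨
      (∃ k < 6, ∀ i < 12, getN π i = rhoS^[k] (muS i))) := by
  decide +kernel

lemma gs1_cases : ∀ π ∈ gs1, (∀ x ∈ π, x < 19) ∧
    ((∀ i < 12, getN π i = i) ∨ (∀ i < 12, getN π i = muS i)) := by
  decide +kernel

theorem exists_sy0 {π : List ℕ} (hπ : π ∈ gs0) : ∃ g, Sy V 0 0 π g := by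
  obtain ⟨h1, h2⟩ := gs0_cases π hπ
  rcases h2 with ⟨k, _, h3⟩ | ⟨k, _, h3⟩
  · refine ⟨rot^[k], h1, ?_, ?_, avg_rotk k⟩
    · intro ψ i hi
      rw [h3 i hi, pw_rotk]
    · intro ψ
      rw [Kw_rotk]
  · refine ⟨fun ψ => mir (rot^[k] ψ), h1, ?_, ?_, ?_⟩
    · intro ψ i hi
      show _ = pw (mir (rot^[k] ψ)) 0 0 i
      rw [h3 i hi, pw_mir0, pw_rotk]
    · intro ψ
      show _ = Kw (pw (mir (rot^[k] ψ)) 0 0)
      rw [Kw_mir0, Kw_rotk]
    · intro F φ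
      rw [avg_rotk k (fun ψ => F (mir ψ)), avg_mir]

theorem exists_sy1 {π : List ℕ} (hπ : π ∈ gs1) : ∃ g, Sy V 1 0 π g := by
  obtain ⟨h1, h2⟩ := gs1_cases π hπ
  rcases h2 with h3 | h3
  · refine ⟨fun ψ => ψ, h1, ?_, fun ψ => rfl, fun F φ => rfl⟩
    intro ψ i hi
    rw [h3 i hi]
  · refine ⟨mir, h1, ?_, ?_, avg_mir⟩
    · intro ψ i hi
      rw [h3 i hi, pw_mir, neg_zero, add_zero]
    · intro ψ
      rw [Kw_mir, neg_zero, add_zero]

theorem Ph0_relab {R C : ℕ} (h : PW 19 R C) (H : SimpleGraph V) (φ : ℤ → ℤ → V) (q : ℝ)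
    {π : List ℕ} (hπ : π ∈ gs0) {s : ℕ} (hs : Eqv 19 s) (hr : RC s) :
    Ph0 H φ q (relab 19 R C π scR s) = Ph0 H φ q s := by
  obtain ⟨g, hg⟩ := exists_sy0 (V := V) hπ
  exact hg.avg h hs hr H φ q

theorem Ph1_relab {R C : ℕ} (h : PW 19 R C) (H : SimpleGraph V) (φ : ℤ → ℤ → V) (q : ℝ)
    {π : List ℕ} (hπ : π ∈ gs1) {s : ℕ} (hs : Eqv 19 s) (hr : RC s) :
    Ph1 H φ q (relab 19 R C π scR s) = Ph1 H φ q s := by
  obtain ⟨g, hg⟩ := exists_sy1 (V := V) hπ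
  exact hg.avg h hs hr H φ q

/-! ### flux -/

omit [Fintype V] in
lemma prp_zero {κ : Type} (d : ℕ → κ) : Prp 19 0 d := by
  intro k hk
  rw [Nat.zero_testBit] at hk
  exact absurd hk (by decide)

omit [Fintype V] in
/-- the content of a flux depends on the colours of the ring only -/
lemma flux_sem {A : Type} [CommRing A] {N : ℕ} (ι : ℤ[X] → A) {qA : A}
    (hI : Ip negX mqX addX ι qA) {R C : ℕ} (h : PW 19 R C) (p : ℕ) {l : List ℕ}
    (hl : ∀ x ∈ l, x < 19) {d d' : ℕ → Fin N} (hd : l.map d = l.map d')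
    (G : List ((ℕ × ℕ) × Fill)) (T : Tr ℤ[X])
    (hT : linT ι (lc A 19 d) T = linT ι (lc A 19 d') T) :
    linT ι (lc A 19 d) (fluxGo negX addX cstX R C p l G T) =
      linT ι (lc A 19 d') (fluxGo negX addX cstX R C p l G T) := by
  induction G generalizing T with
  | nil => exact hT
  | cons e G ih =>
    refine ih (insAll addX p (colC negX R C 0 l (addX (cstX e.1.1) (negX (cstX e.1.2))) e.2) T) ?_
    rw [linT_insAll ι _ hI, linT_insAll ι _ hI, hT]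
    congr 1
    unfold colC
    rw [lin_colF (A := A) ι h hI e.2 hl (prp_zero d) (allL_one _ eqv_idp),
      lin_colF (A := A) ι h hI e.2 hl (prp_zero d') (allL_one _ eqv_idp), hd, lin_cons, lin_nil,
      lin_cons, lin_nil]
    have e1 : ∀ d : ℕ → Fin N, lc A 19 d (idp 19 19) = 1 := fun d => if_pos (sat_idp 19 d)
    rw [e1, e1]

omit [Fintype V] in
open scoped Classical in
lemma lc_congr {A κ : Type} [CommRing A] {w s s' : ℕ} {d d' : ℕ → κ}
    (h : Sat w s d ↔ Sat w s' d') : lc A w d s = lc A w d' s' := by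
  unfold lc
  exact if_congr h rfl rfl

/-- the flux of a rhombus in two windows -/
theorem flux_transfer {R C : ℕ} (h : PW 19 R C) (p n : ℕ) {H : SimpleGraph V}
    {pos pos' : ℕ → V} {S S' : List ℕ} (hS : sset pos S = sset pos' S') {l τ : List ℕ}
    (hl : ∀ x ∈ l, x < 19) (hτ : ∀ x ∈ τ, x < 19) (hpos : ∀ x ∈ l, pos x = pos' (getN τ x))
    (G : List ((ℕ × ℕ) × Fill)) (q : ℝ) :
    LT q (FS H pos S q) (flux negX addX cstX R C p n l G) =
      LT q (fun s => FS H pos' S' q (relab 19 R C τ scA s))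
        (flux negX addX cstX R C p n l G) := by
  set T0 := flux negX addX cstX R C p n l G with hT0
  have hE : AllT (Eqv 19) T0 := allT_flux h hl G
  have e1 : linT iX (pl H (sset pos S) 19 pos) T0 =
      linT iX (fun s => pl H (sset pos' S') 19 pos' (relab 19 R C τ scA s)) T0 := by
    rw [hS]
    apply poly_ext
    intro N
    have a1 : ∀ (Λ : ℕ → ℝ[X]), (linT iX Λ T0).eval (N : ℝ) =
        linT (fun k => (iX k).eval (N : ℝ)) (fun s => (Λ s).eval (N : ℝ)) T0 := by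
      intro Λ
      have h1 := eval_linT (evalRingHom (N : ℝ)) iX Λ T0
      simpa only [coe_evalRingHom] using h1
    rw [a1, a1]
    simp only [pl_eval]
    unfold Zs
    rw [linT_sum, linT_sum]
    refine Finset.sum_congr rfl fun c _ => ?_
    have hI : Ip negX mqX addX (fun k => (iX k).eval (N : ℝ)) (N : ℝ) :=
      ⟨fun c => by rw [ipiX.neg, eval_neg], fun c => by rw [ipiX.mq, eval_mul, eval_X],
        fun c d => by rw [ipiX.add, eval_add]⟩
    have a2 : linT (fun k => (iX k).eval (N : ℝ))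
        (fun s => lc ℝ 19 (c ∘ pos') (relab 19 R C τ scA s)) T0 =
        linT (fun k => (iX k).eval (N : ℝ)) (lc ℝ 19 (fun i => c (pos' (getN τ i)))) T0 := by
      refine linT_congr (P := Eqv 19) _ (fun s hs => ?_) hE
      exact lc_congr (sat_relab_all h hτ hs _)
    rw [a2]
    refine flux_sem _ hI h p hl ?_ G (Tr.emp ℤ[X] n) ?_
    · apply List.map_congr_left
      intro x hx
      show c (pos x) = c (pos' (getN τ x))
      rw [hpos x hx]
    · rw [linT_emp, linT_emp]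
  have e2 := congrArg (fun p : ℝ[X] => p.eval q) e1
  have a1 : ∀ (Λ : ℕ → ℝ[X]), (linT iX Λ T0).eval q =
      linT (fun k => (iX k).eval q) (fun s => (Λ s).eval q) T0 := by
    intro Λ
    have h1 := eval_linT (evalRingHom q) iX Λ T0
    simpa only [coe_evalRingHom] using h1
  simp only [a1] at e2
  rw [iX_fun] at e2
  exact e2

/-- one flux in two windows -/
theorem flux_win {R C : ℕ} (h : PW 19 R C) (p n : ℕ) {a0 : ℕ} (h0 : a0 = adj0)
    {H : SimpleGraph V} {pos pos' : ℕ → V} (hW : Win H pos) (hW' : Win H pos')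
    {S S' : List ℕ} (hS : sset pos S = sset pos' S') (hSi : ∀ u ∈ S, 12 ≤ u ∧ u < 19)
    (hSi' : ∀ u ∈ S', 12 ≤ u ∧ u < 19) {l τ : List ℕ}
    (hl : ∀ x ∈ l, x < 19) (hτ : ∀ x ∈ τ, x < 19) (hpos : ∀ x ∈ l, pos x = pos' (getN τ x))
    {vs vs' : List (ℕ × List ℕ)} (hvs : VOK 19 vs a0) (hvs' : VOK 19 vs' a0)
    (hg : vgb S vs = true) (hg' : vgb S' vs' = true) (hlen : vs.length = vs'.length)
    (hall : ∀ x, (x ∈ S ∨ ∃ u ∈ vs, x = u.1) ↔ x ∈ inn)
    (hall' : ∀ x, (x ∈ S' ∨ ∃ u ∈ vs', x = u.1) ↔ x ∈ inn)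
    (G : List ((ℕ × ℕ) × Fill)) (q : ℝ) :
    LT q (Fw H pos q) (Pool.Agent.U5C.expand negX mqX addX 19 R C p n
        (flux negX addX cstX R C p n l G) vs a0) =
      LT q (Fw H pos' q) (Pool.Agent.U5C.expand negX mqX addX 19 R C p n
        (addTs addX (relab 19 R C τ scA) (fun c => c) p (flux negX addX cstX R C p n l G)
          (Tr.emp ℤ[X] n)) vs' a0) := by
  have hE : AllT (Eqv 19) (flux negX addX cstX R C p n l G) := allT_flux h hl G
  rw [← hW.expandX h hSi p n hE h0 hvs hg hall q,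
    ← hW'.expandX h hSi' p n (allT_addTs (fun s _ => eqv_relab h (getN_lt (by norm_num) hτ) scA s)
      _ p hE (allT_emp _ _)) h0 hvs' hg' hall' q, hlen,
    flux_transfer h p n hS hl hτ hpos G q]
  congr 1
  show _ = linT _ _ _
  rw [linT_addTs _ _ (ipq q), linT_emp, zero_add]

lemma posA (φ : ℤ → ℤ → V) : ∀ x ∈ rhoA, pw φ 0 0 x = pw φ 1 0 (getN tauA x) := by
  intro x hx
  rw [pw_eq, pw_eq]
  have key : ∀ x ∈ rhoA, off x = (1 + (off (getN tauA x)).1, (off (getN tauA x)).2) := by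
    decide +kernel
  rw [key x hx]
  simp only [zero_add]

lemma posB (φ : ℤ → ℤ → V) : ∀ x ∈ rhoB, pw φ 1 0 x = pw φ 0 1 (getN tauB x) := by
  intro x hx
  rw [pw_eq, pw_eq]
  have key : ∀ x ∈ rhoB, (1 + (off x).1, (off x).2) =
      ((off (getN tauB x)).1, 1 + (off (getN tauB x)).2) := by
    decide +kernel
  have k1 := key x hx
  rw [Prod.mk.injEq] at k1
  rw [k1.1, k1.2]
  simp only [zero_add]

lemma ssA (φ : ℤ → ℤ → V) : sset (pw φ 0 0) (S1 0) = sset (pw φ 1 0) (S2 0) := by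
  have h1 := sset_S φ 0 0 (d := 0) (by norm_num)
  rw [show (0 : ℤ) + ex ((0 : ℕ) : ZMod 6) = 1 from by decide,
    show (0 : ℤ) + ey ((0 : ℕ) : ZMod 6) = 0 from by decide] at h1
  exact h1

lemma ssB (φ : ℤ → ℤ → V) : sset (pw φ 1 0) (S1 2) = sset (pw φ 0 1) (S2 2) := by
  have h1 := sset_S φ 1 0 (d := 2) (by norm_num)
  rw [show (1 : ℤ) + ex ((2 : ℕ) : ZMod 6) = 0 from by decide,
    show (0 : ℤ) + ey ((2 : ℕ) : ZMod 6) = 1 from by decide] at h1
  exact h1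

/-- **flux A**: centre window against outer window -/
theorem fluxA_eq {R C : ℕ} (h : PW 19 R C) (p n : ℕ) {a0 : ℕ} (h0 : a0 = adj0)
    (hA : VOK 19 vsA a0) (hA' : VOK 19 vsA' a0) {H : SimpleGraph V} {φ : ℤ → ℤ → V}
    (hφ : HexLoc H φ) (GA : List ((ℕ × ℕ) × Fill)) (q : ℝ) :
    LT q (Ph0 H φ q) (fluxA negX mqX addX cstX R C p n a0 GA) =
      LT q (Ph1 H φ q) (fluxA' negX mqX addX cstX R C p n a0 GA) := by
  rw [LT_Ph0, LT_Ph1]
  apply avg_congr hφ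
  intro ψ hψ
  exact flux_win h p n h0 (hψ.win (a := 0) (b := 0) (by unfold Ctr; norm_num))
    (hψ.win (a := 1) (b := 0) (by unfold Ctr; norm_num)) (ssA ψ) (by decide) (by decide)
    (by decide) (by decide) (posA ψ) hA hA' (by decide) (by decide) rfl
    (by
      intro x
      simp only [S1, vsA, List.mem_cons, List.not_mem_nil, or_false, exists_eq_or_imp,
        exists_eq_left, inn]
      omega)
    (by
      intro x
      simp only [S2, vsA', List.mem_cons, List.not_mem_nil, or_false, exists_eq_or_imp,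
        exists_eq_left, inn]
      omega) GA q

omit [Fintype V] in
lemma getN_ne {τ : List ℕ} {i : ℕ} (h1 : i ∉ τ) (h2 : i ≠ 0) (j : ℕ) : getN τ j ≠ i := by
  by_cases hj : j < τ.length
  · intro h3
    exact h1 (h3 ▸ getN_mem hj)
  · rw [getN_eq, List.getD_eq_default _ _ (not_lt.1 hj)]
    exact h2.symm

omit [Fintype V] in
/-- the codes of the flux `B'` are ring codes -/
theorem rc_fluxB' {R C : ℕ} (h : PW 19 R C) (p n : ℕ) {a0 : ℕ} (hB' : VOK 19 vsB' a0)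
    (GB : List ((ℕ × ℕ) × Fill)) :
    AllT (fun s => Eqv 19 s ∧ RC s) (fluxB' negX mqX addX cstX R C p n a0 GB) := by
  have hE : AllT (Eqv 19) (flux negX addX cstX R C p n rhoB GB) := allT_flux h (by decide) GB
  have hτ : ∀ x ∈ tauB, x < 19 := by decide
  have h1 : AllT (Eqv 19) (addTs addX (relab 19 R C tauB scA) (fun c => c) p
      (flux negX addX cstX R C p n rhoB GB) (Tr.emp ℤ[X] n)) :=
    allT_addTs (fun s _ => eqv_relab h (getN_lt (by norm_num) hτ) scA s) _ p hE (allT_emp _ _)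
  have h2 : ∀ i ∈ [12, 16, 17, 18], AllT (FE 19 i) (addTs addX (relab 19 R C tauB scA)
      (fun c => c) p (flux negX addX cstX R C p n rhoB GB) (Tr.emp ℤ[X] n)) := by
    intro i hi
    refine allT_addTs (P := Eqv 19) (fun s hs => ⟨eqv_relab h (getN_lt (by norm_num) hτ) scA s,
      (sat_relab_all h hτ hs _).2 ?_⟩) _ p hE (allT_emp _ _)
    have h3 : i ∉ tauB ∧ i ≠ 0 := by
      revert i; decide
    intro k _
    show (getN tauB (k / 19) = i) = (getN tauB (k % 19) = i)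
    simp only [getN_ne h3.1 h3.2]
  have h3 : ∀ i ∈ inn, AllT (FE 19 i) (fluxB' negX mqX addX cstX R C p n a0 GB) := by
    intro i hi
    refine allT_expand_fr h p n h1 h2 hB' ?_
    revert i; decide
  refine allT_imp ?_ (allT_forall inn h3)
  intro s hs
  exact ⟨(hs 12 (by decide)).1, rc_of_fe hs⟩

/-- **flux B**: outer window against the next outer window -/
theorem fluxB_eq {R C : ℕ} (h : PW 19 R C) (p n : ℕ) {a0 : ℕ} (h0 : a0 = adj0)
    (hB : VOK 19 vsB a0) (hB' : VOK 19 vsB' a0) {H : SimpleGraph V} {φ : ℤ → ℤ → V}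
    (hφ : HexLoc H φ) (GB : List ((ℕ × ℕ) × Fill)) (q : ℝ) :
    LT q (Ph1 H φ q) (fluxB negX mqX addX cstX R C p n a0 GB) =
      LT q (fun s => Ph1 H φ q (relab 19 R C rotL scR s))
        (fluxB' negX mqX addX cstX R C p n a0 GB) := by
  have e1 : LT q (fun s => Ph1 H φ q (relab 19 R C rotL scR s))
      (fluxB' negX mqX addX cstX R C p n a0 GB) =
      LT q (fun s => avg (fun ψ => Fw H (pw ψ 0 1) q s) φ)
        (fluxB' negX mqX addX cstX R C p n a0 GB) := by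
    refine linT_congr (P := fun s => Eqv 19 s ∧ RC s) _ (fun s hs => ?_)
      (rc_fluxB' h p n hB' GB)
    unfold Ph1
    rw [← avg_rot (fun ψ => Fw H (pw ψ 1 0) q (relab 19 R C rotL scR s)) φ]
    congr 1
    funext ψ
    refine Fw_relab h (by decide) hs.1 hs.2 ?_ ?_ q
    · intro i hi
      rw [pw_rot, neg_zero, add_zero]
      congr 1
      revert i; decide
    · rw [Kw_rot, neg_zero, add_zero]
  have e2 : LT q (fun s => avg (fun ψ => Fw H (pw ψ 0 1) q s) φ)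
        (fluxB' negX mqX addX cstX R C p n a0 GB) =
      avg (fun ψ => LT q (Fw H (pw ψ 0 1) q) (fluxB' negX mqX addX cstX R C p n a0 GB)) φ :=
    linT_avg _ (fun ψ => Fw H (pw ψ 0 1) q) φ _
  rw [e1, e2, LT_Ph1]
  apply avg_congr hφ
  intro ψ hψ
  exact flux_win h p n h0 (hψ.win (a := 1) (b := 0) (by unfold Ctr; norm_num))
    (hψ.win (a := 0) (b := 1) (by unfold Ctr; norm_num)) (ssB ψ) (by decide) (by decide)
    (by decide) (by decide) (posB ψ) hB hB' (by decide) (by decide) rfl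
    (by
      intro x
      simp only [S1, vsB, List.mem_cons, List.not_mem_nil, or_false, exists_eq_or_imp,
        exists_eq_left, inn]
      omega)
    (by
      intro x
      simp only [S2, vsB', List.mem_cons, List.not_mem_nil, or_false, exists_eq_or_imp,
        exists_eq_left, inn]
      omega) GB q

end fin

end Pool.Agent.Helper24.U5P
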