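import Pool.Agent.Helper24.U5P.Flux
import Pool.Agent.U5C.Near5

/-!
# Codes with free slots
-/

set_option autoImplicit false

namespace Pool.Agent.Helper24.U5P

open Pool.Agent.U5C

/-- equivalence code in which the slot `i` is free -/
def FE (w i s : ℕ) : Prop := Eqv w s ∧ Sat w s (fun k => k = i)

section

variable {K : Type} {neg mq : K → K} {add : K → K → K} {w R C : ℕ}

lemma FE.mrg {i s a b : ℕ} (h : PW w R C) (hs : FE w i s) (ha : a < w) (hb : b < w) (hai : a ≠ i)
    (hbi : b ≠ i) : FE w i (mrg w R C a b s) := by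
  refine ⟨hs.1.mrg h ha hb, (sat_mrg h hs.1 ha hb _).2 ⟨hs.2, ?_⟩⟩
  show (a = i) = (b = i)
  simp [hai, hbi]

lemma allL_mulNE_fr {i : ℕ} (h : PW w R C) {adj a b : ℕ} (ha : a < w) (hb : b < w) (hai : a ≠ i)
    (hbi : b ≠ i) {L : FL K} (hL : AllL (FE w i) L) :
    AllL (FE w i) (mulNE neg w R C adj a b L) := by
  induction L with
  | nil => trivial
  | cons s c L ih =>
    rw [mulNE_cons]
    cases Nat.beq (Nat.land (Nat.shiftRight s (Nat.add (Nat.mul w a) b)) 1) 1 with
    | true => exact ih hL.2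
    | false =>
      cases Nat.beq (Nat.land (mrg w R C a b s) adj) 0 with
      | true => exact ⟨hL.1, hL.1.mrg h ha hb hai hbi, ih hL.2⟩
      | false => exact ⟨hL.1, ih hL.2⟩

lemma allL_mulNEs_fr {i : ℕ} (h : PW w R C) {adj b : ℕ} (hb : b < w) (hbi : b ≠ i)
    {us : List ℕ} (hus : ∀ u ∈ us, u < w ∧ u ≠ i) {L : FL K} (hL : AllL (FE w i) L) :
    AllL (FE w i) (mulNEs neg w R C adj b us L) := by
  induction us generalizing L with
  | nil => exact hL
  | cons u us ih =>
    exact ih (fun x hx => hus x (List.mem_cons_of_mem _ hx))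
      (allL_mulNE_fr h hb (hus u List.mem_cons_self).1 hbi (hus u List.mem_cons_self).2 hL)

lemma allT_elimGo_fr {i : ℕ} (h : PW w R C) {adj : ℕ} {s : ℕ} (hs : FE w i s) (c : K) (p : ℕ)
    {nb E : List ℕ} (hnb : ∀ u ∈ nb, u < w ∧ u ≠ i) (hE : ∀ u ∈ E, u < w ∧ u ≠ i) {T : Tr K}
    (hT : AllT (FE w i) T) :
    AllT (FE w i) (elimGo neg add w R C adj s c nb E p T) := by
  induction nb generalizing E T with
  | nil => exact hT
  | cons u us ih =>
    have hu := hnb u List.mem_cons_self
    exact ih (fun x hx => hnb x (List.mem_cons_of_mem _ hx))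
      (by
        intro x hx
        rcases List.mem_cons.1 hx with h1 | h1
        · rw [h1]; exact hu
        · exact hE x h1)
      (allT_insAll p (allL_mulNEs_fr h hu.1 hu.2 hE (allL_one _ hs)) hT)

lemma allT_elimT_fr {i : ℕ} (h : PW w R C) {adj v : ℕ} (hv : v < w) {nb : List ℕ}
    (hnb : ∀ u ∈ nb, u < w ∧ u ≠ i) (p : ℕ) {s : ℕ} (hs : Eqv w s) (hsi : i = v ∨ FE w i s)
    (c : K) {T : Tr K} (hT : AllT (FE w i) T) :
    AllT (FE w i) (elimT neg mq add w R C adj v (keep w R C v) nb p s c T) := by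
  rw [elimT_eq]
  cases h1 : Nat.beq (Nat.xor (Nat.land (Nat.shiftRight s (Nat.mul w v)) R) (Nat.pow 2 v)) 0 with
  | true =>
    have hr : (Nat.xor (Nat.land (Nat.shiftRight s (Nat.mul w v)) R) (Nat.pow 2 v)) = 0 :=
      Nat.eq_of_beq_eq_true h1
    have hrow : ∀ k, k < w → s.testBit (w * v + k) = true → k = v := by
      intro k hk hsk
      by_contra hkv
      have := (h.rest hv s k).2 (Or.inl ⟨hk, hsk, hkv⟩)
      rw [hr, Nat.zero_testBit] at this
      exact absurd this (by decide)
    have hs' : FE w i s := by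
      rcases hsi with rfl | h2
      · refine ⟨hs, (sat_iff h.pos hs _).2 ?_⟩
        intro a b ha hb hab
        show (a = i) = (b = i)
        apply propext
        constructor
        · rintro rfl; exact hrow b hb hab
        · rintro rfl; exact hrow a ha (hs.symm _ _ ha hb hab)
      · exact h2
    exact allT_elimGo_fr h hs' c p hnb (by simp) (allT_ins _ hs' hT _)
  | false =>
    have hr : (Nat.xor (Nat.land (Nat.shiftRight s (Nat.mul w v)) R) (Nat.pow 2 v)) ≠ 0 := by
      intro h0; rw [h0] at h1; exact absurd h1 (by decide)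
    have hb := testBit_log2' hr
    rw [h.rest hv] at hb
    generalize hbe : Nat.log2 (Nat.xor (Nat.land (Nat.shiftRight s (Nat.mul w v)) R)
      (Nat.pow 2 v)) = b at hb ⊢
    have hb' : b < w ∧ s.testBit (w * v + b) = true ∧ b ≠ v := by
      rcases hb with hb | hb
      · exact hb
      · exfalso
        apply hb.2
        rw [hb.1]; exact hs.rfl' v hv
    obtain ⟨hbw, hsb, hbv⟩ := hb'
    have hbi : b ≠ i := by
      rcases hsi with rfl | h2
      · exact hbv
      · intro hbi
        have h3 := (sat_iff h.pos hs _).1 h2.2 v b hv hbw hsb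
        have h4 : (v = i) = (b = i) := h3
        rw [hbi] at h4
        have h5 : v = i := by rw [h4]
        exact hbv (hbi.trans h5.symm)
    have hs' : FE w i (Nat.land s (keep w R C v)) := by
      refine ⟨hs.and_keep h hv, (sat_iff h.pos (hs.and_keep h hv) _).2 ?_⟩
      intro a b ha hb hab
      rw [h.and_keep hv s ha hb] at hab
      show (a = i) = (b = i)
      rcases hsi with rfl | h2
      · rcases hab.2 with h3 | h3
        · simp [h3.1, h3.2]
        · simp [h3.1, h3.2]
      · exact (sat_iff h.pos hs _).1 h2.2 a b ha hb hab.1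
    exact allT_insAll p (allL_mulNEs_fr h hbw hbi hnb (allL_one _ hs')) hT

lemma allT_elimL_fr {i : ℕ} (h : PW w R C) {adj v : ℕ} (hv : v < w) {nb : List ℕ}
    (hnb : ∀ u ∈ nb, u < w ∧ u ≠ i) (p : ℕ) {L : FL K}
    (hL : AllL (fun s => Eqv w s ∧ (i = v ∨ FE w i s)) L) {T : Tr K}
    (hT : AllT (FE w i) T) :
    AllT (FE w i) (elimL neg mq add w R C adj v (keep w R C v) nb p L T) := by
  induction L generalizing T with
  | nil => exact hT
  | cons s c L ih => exact ih hL.2 (allT_elimT_fr h hv hnb p hL.1.1 hL.1.2 c hT)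

lemma allT_elimA_fr {i : ℕ} (h : PW w R C) {adj v : ℕ} (hv : v < w) {nb : List ℕ}
    (hnb : ∀ u ∈ nb, u < w ∧ u ≠ i) (p : ℕ) {T0 : Tr K}
    (hT0 : AllT (fun s => Eqv w s ∧ (i = v ∨ FE w i s)) T0) {T : Tr K}
    (hT : AllT (FE w i) T) :
    AllT (FE w i) (elimA neg mq add w R C adj v (keep w R C v) nb p T0 T) := by
  induction T0 generalizing T with
  | lf L => exact allT_elimL_fr h hv hnb p hT0 hT
  | nd l r ihl ihr => exact ihr hT0.2 (ihl hT0.1 hT)

lemma allT_imp {P Q : ℕ → Prop} (hPQ : ∀ s, P s → Q s) {T : Tr K} (hT : AllT P T) :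
    AllT Q T := by
  have key : ∀ L : FL K, AllL P L → AllL Q L := by
    intro L
    induction L with
    | nil => intro _; trivial
    | cons s c L ih => intro hL; exact ⟨hPQ s hL.1, ih hL.2⟩
  induction T with
  | lf L => exact key L hT
  | nd l r ihl ihr => exact ⟨ihl hT.1, ihr hT.2⟩

lemma allT_forall {P : ℕ → ℕ → Prop} {T : Tr K} (I : List ℕ) (hT : ∀ i ∈ I, AllT (P i) T) :
    AllT (fun s => ∀ i ∈ I, P i s) T := by
  induction I with
  | nil =>
    have : ∀ T : Tr K, AllT (fun s => ∀ i ∈ ([] : List ℕ), P i s) T := by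
      intro T
      have key : ∀ L : FL K, AllL (fun s => ∀ i ∈ ([] : List ℕ), P i s) L := by
        intro L
        induction L with
        | nil => trivial
        | cons s c L ih => exact ⟨by simp, ih⟩
      induction T with
      | lf L => exact key L
      | nd l r ihl ihr => exact ⟨ihl, ihr⟩
    exact this T
  | cons i I ih =>
    have h1 := hT i List.mem_cons_self
    have h2 := ih (fun j hj => hT j (List.mem_cons_of_mem _ hj))
    refine allT_imp ?_ (allT_and h1 h2)
    intro s hs j hj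
    rcases List.mem_cons.1 hj with rfl | hj
    · exact hs.1
    · exact hs.2 j hj

/-- the slots which are free after the elimination of `vs` -/
def frb (F : List ℕ) (i : ℕ) : List (ℕ × List ℕ) → Bool
  | [] => F.contains i
  | v :: vs => v.2.all (fun u => u != i) && (v.1 == i || frb F i vs)

lemma allT_expand_fr {i : ℕ} {F : List ℕ} (h : PW w R C) (p n : ℕ) {T0 : Tr K}
    (hT0 : AllT (Eqv w) T0) (hF : ∀ i ∈ F, AllT (FE w i) T0)
    {vs : List (ℕ × List ℕ)} {adj : ℕ} (hvs : VOK w vs adj) (hb : frb F i vs = true) :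
    AllT (FE w i) (expand neg mq add w R C p n T0 vs adj) := by
  induction vs generalizing adj with
  | nil =>
    have : i ∈ F := by simpa [frb] using hb
    exact hF i this
  | cons v vs ih =>
    rw [expand_cons]
    simp only [frb, Bool.and_eq_true, List.all_eq_true, bne_iff_ne, Bool.or_eq_true,
      beq_iff_eq] at hb
    refine allT_elimA_fr h hvs.1 (fun u hu => ⟨(hvs.2.1 u hu).1, hb.1 u hu⟩) p ?_ (allT_emp _ _)
    have h1 := allT_expand (neg := neg) (mq := mq) (add := add) h p n hT0 hvs.2.2.2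
    rcases hb.2 with h2 | h2
    · exact allT_imp (fun s hs => ⟨hs, Or.inl h2.symm⟩) h1
    · exact allT_imp (fun s hs => ⟨hs.1, Or.inr hs⟩) (ih hvs.2.2.2 h2)

end

/-! ### ring codes -/

/-- the inner slots are free -/
def RC (s : ℕ) : Prop :=
  ∀ i j, 12 ≤ i → i < 19 → j < 19 → s.testBit (19 * i + j) = true → i = j

lemma rc_of_fe {s : ℕ} (h : ∀ i ∈ inn, FE 19 i s) : RC s := by
  intro i j hi hi' hj hij
  have hi2 : i ∈ inn := by
    simp only [inn, List.mem_cons, List.not_mem_nil, or_false]; omega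
  have h1 := h i hi2
  have h2 := (sat_iff (by norm_num) h1.1 _).1 h1.2 i j hi' hj hij
  have h3 : (i = i) = (j = i) := h2
  have h4 : j = i := by rw [← h3]
  exact h4.symm

lemma sat_ring {κ : Type} {s : ℕ} (hs : Eqv 19 s) (hr : RC s) {d d' : ℕ → κ}
    (hd : ∀ i < 12, d i = d' i) : Sat 19 s d ↔ Sat 19 s d' := by
  have key : ∀ d d' : ℕ → κ, (∀ i < 12, d i = d' i) → Sat 19 s d → Sat 19 s d' := by
    intro d d' hd h
    rw [sat_iff (by norm_num) hs] at h ⊢
    intro i j hi hj hij
    rcases lt_or_ge i 12 with h1 | h1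
    · rcases lt_or_ge j 12 with h2 | h2
      · rw [← hd i h1, ← hd j h2]
        exact h i j hi hj hij
      · have := hr j i h2 hj hi (hs.symm _ _ hi hj hij)
        rw [this]
    · rw [hr i j h1 hi hj hij]
  exact ⟨key d d' hd, key d' d fun i hi => (hd i hi).symm⟩

lemma sat_relab_ring {κ : Type} {R C : ℕ} (h : PW 19 R C) {π : List ℕ} (hπ : ∀ x ∈ π, x < 19)
    {s : ℕ} (hs : Eqv 19 s) (hr : RC s) {d d' : ℕ → κ} (hd : ∀ i < 12, d (getN π i) = d' i) :
    Sat 19 (relab 19 R C π scR s) d ↔ Sat 19 s d' := by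
  rw [sat_relab h (getN_lt (by norm_num) hπ) hs ?_ (by decide) d]
  · exact sat_ring hs hr hd
  · intro i hi k hk hik
    rcases lt_or_ge i 12 with h1 | h1
    · have h0 : 1 ≤ i := by omega
      have key : ∀ i, 1 ≤ i → i < 12 → i ∈ scR := by
        intro i h0 h1
        simp only [scR, List.mem_cons, List.not_mem_nil, or_false]
        omega
      exact key i h0 h1
    · have := hr i k h1 hi (by omega) hik
      omega

lemma sat_relab_all {κ : Type} {R C : ℕ} (h : PW 19 R C) {π : List ℕ} (hπ : ∀ x ∈ π, x < 19)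
    {s : ℕ} (hs : Eqv 19 s) (d : ℕ → κ) :
    Sat 19 (relab 19 R C π scA s) d ↔ Sat 19 s (fun i => d (getN π i)) := by
  apply sat_relab h (getN_lt (by norm_num) hπ) hs
  · intro i hi k hk _
    simp only [scA, List.mem_cons, List.not_mem_nil, or_false]
    omega
  · decide

end Pool.Agent.Helper24.U5P
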