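import Pool.Agent.Helper24.U5P.Fun

/-!
# A window of a flat region: slots

The closed neighbourhood of a flat vertex: slot `18` is the centre, `12 + i` the rim, `0, .., 11`
the ring (`2 i` is adjacent to the rim vertex `i` only, `2 i + 1` to the rim vertices `i`, `i + 1`).
-/

set_option autoImplicit false

namespace Pool.Agent.Helper24.U5P

open SimpleGraph Finset Polynomial Pool.Agent.U5 Pool.Agent.U5C Pool.Agent.Helper36.BL

variable {V : Type}

/-- the six neighbours of an inner slot -/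
def HN : ℕ → List ℕ
  | 12 => [18, 17, 13, 11, 0, 1]
  | 13 => [18, 12, 14, 1, 2, 3]
  | 14 => [18, 13, 15, 3, 4, 5]
  | 15 => [18, 14, 16, 5, 6, 7]
  | 16 => [18, 15, 17, 7, 8, 9]
  | 17 => [18, 16, 12, 9, 10, 11]
  | 18 => [12, 13, 14, 15, 16, 17]
  | _ => []

/-- the window at a flat vertex, all of whose neighbours are flat -/
structure Win (H : SimpleGraph V) (pos : ℕ → V) : Prop where
  inj : ∀ v, 12 ≤ v → v < 19 → ∀ j, j ≠ v → pos j ≠ pos v
  adj : ∀ v, 12 ≤ v → v < 19 → ∀ y, H.Adj (pos v) y ↔ ∃ u ∈ HN v, y = pos u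
  ring : ∀ i, i < 12 → H.Adj (pos i) (pos ((i + 1) % 12))

/-- the adjacency matrix of the ring of the window, in width `19` -/
def adjR : ℕ := (List.range 12).foldr (fun i s =>
  s ||| 2 ^ (19 * i + (i + 1) % 12) ||| 2 ^ (19 * ((i + 1) % 12) + i)) 0

lemma testBit_adjR (k : ℕ) (h : adjR.testBit k = true) :
    ∃ i, i < 12 ∧ (k = 19 * i + (i + 1) % 12 ∨ k = 19 * ((i + 1) % 12) + i) := by
  unfold adjR at h
  have key : ∀ L : List ℕ, (∀ i ∈ L, i < 12) → (L.foldr (fun i s =>
      s ||| 2 ^ (19 * i + (i + 1) % 12) ||| 2 ^ (19 * ((i + 1) % 12) + i)) 0).testBit k = true →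
      ∃ i, i < 12 ∧ (k = 19 * i + (i + 1) % 12 ∨ k = 19 * ((i + 1) % 12) + i) := by
    intro L
    induction L with
    | nil => intro _ h; simp at h
    | cons i L ih =>
      intro hL h
      rw [List.foldr_cons, Nat.testBit_or, Nat.testBit_or, Nat.testBit_two_pow,
        Nat.testBit_two_pow, Bool.or_eq_true, Bool.or_eq_true, decide_eq_true_eq,
        decide_eq_true_eq] at h
      rcases h with (h | h) | h
      · exact ih (fun j hj => hL j (List.mem_cons_of_mem _ hj)) h
      · exact ⟨i, hL i List.mem_cons_self, Or.inl h.symm⟩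
      · exact ⟨i, hL i List.mem_cons_self, Or.inr h.symm⟩
  exact key _ (fun i hi => List.mem_range.1 hi) h

/-- the check for a list of inner slots, over the deleted inner slots `S` -/
def vgb (S : List ℕ) : List (ℕ × List ℕ) → Bool
  | [] => true
  | v :: vs => decide (12 ≤ v.1) && decide (v.1 < 19) && !(S.contains v.1) &&
      vs.all (fun u => u.1 != v.1) &&
      (HN v.1).all (fun u => v.2.contains u || S.contains u || vs.any (fun x => x.1 == u)) &&
      v.2.all (fun u => (HN v.1).contains u && !(S.contains u) && vs.all (fun x => x.1 != u)) &&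
      vgb S vs

open scoped Classical in
/-- the vertices of a list of slots -/
noncomputable def sset (pos : ℕ → V) (S : List ℕ) : Finset V := (S.map pos).toFinset

lemma mem_sset (pos : ℕ → V) (S : List ℕ) (y : V) : y ∈ sset pos S ↔ ∃ u ∈ S, y = pos u := by
  classical
  unfold sset
  simp only [List.mem_toFinset, List.mem_map]
  constructor
  · rintro ⟨u, h1, h2⟩; exact ⟨u, h1, h2.symm⟩
  · rintro ⟨u, h1, h2⟩; exact ⟨u, h1, h2.symm⟩

lemma mem_HN_lt : ∀ v, v < 19 → ∀ u ∈ HN v, u < 19 := by decide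

theorem Win.vg {H : SimpleGraph V} {pos : ℕ → V} (hW : Win H pos) {S : List ℕ}
    (hS : ∀ u ∈ S, 12 ≤ u ∧ u < 19) : ∀ {vs : List (ℕ × List ℕ)}, vgb S vs = true →
    VG H pos (sset pos S) vs := by
  intro vs
  induction vs with
  | nil => intro _; trivial
  | cons v vs ih =>
    intro h
    simp only [vgb, Bool.and_eq_true, decide_eq_true_eq, Bool.not_eq_true', List.all_eq_true,
      List.any_eq_true, Bool.or_eq_true, bne_iff_ne, beq_iff_eq] at h
    obtain ⟨⟨⟨⟨⟨⟨h1, h2⟩, h3⟩, h4⟩, h5⟩, h6⟩, h7⟩ := h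
    have h3' : v.1 ∉ S := by
      intro hc
      have : S.contains v.1 = true := by simpa using hc
      rw [h3] at this
      exact absurd this (by decide)
    -- a slot equal to an inner slot
    have key : ∀ x, 12 ≤ x → x < 19 → ∀ j, pos j = pos x → j = x := by
      intro x hx hx' j hj
      by_contra hne
      exact hW.inj x hx hx' j hne hj
    have hvs : ∀ u ∈ vs, 12 ≤ u.1 ∧ u.1 < 19 := by
      have : ∀ (vs : List (ℕ × List ℕ)), vgb S vs = true → ∀ u ∈ vs, 12 ≤ u.1 ∧ u.1 < 19 := by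
        intro vs
        induction vs with
        | nil => intro _ u hu; simp at hu
        | cons v vs ih =>
          intro h u hu
          simp only [vgb, Bool.and_eq_true, decide_eq_true_eq] at h
          rcases List.mem_cons.1 hu with rfl | hu
          · exact ⟨h.1.1.1.1.1.1, h.1.1.1.1.1.2⟩
          · exact ih h.2 u hu
      exact this vs h7
    refine ⟨fun j hj => hW.inj v.1 h1 h2 j hj, ?_, h4, ?_, ih h7⟩
    · rw [mem_sset]
      rintro ⟨u, hu, he⟩
      have := key u (hS u hu).1 (hS u hu).2 v.1 he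
      exact h3' (this ▸ hu)
    · intro y
      constructor
      · rintro ⟨a1, a2, a3⟩
        obtain ⟨u, hu, rfl⟩ := (hW.adj v.1 h1 h2 y).1 a1
        rcases h5 u hu with (a4 | a4) | ⟨x, hx, a4⟩
        · exact ⟨u, by simpa using a4, rfl⟩
        · exfalso
          apply a2
          rw [mem_sset]
          exact ⟨u, by simpa using a4, rfl⟩
        · exfalso
          exact a3 x hx (by rw [a4])
      · rintro ⟨u, hu, rfl⟩
        obtain ⟨⟨b1, b2⟩, b3⟩ := h6 u hu
        have b1' : u ∈ HN v.1 := by simpa using b1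
        refine ⟨(hW.adj v.1 h1 h2 _).2 ⟨u, b1', rfl⟩, ?_, ?_⟩
        · rw [mem_sset]
          rintro ⟨x, hx, he⟩
          have := key x (hS x hx).1 (hS x hx).2 u he
          subst this
          have : S.contains u = true := by simpa using hx
          rw [b2] at this
          exact absurd this (by decide)
        · intro x hx he
          have := key x.1 (hvs x hx).1 (hvs x hx).2 u he
          exact b3 x hx this.symm

/-- all inner slots -/
def inn : List ℕ := [12, 13, 14, 15, 16, 17, 18]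

/-- the closed neighbourhood of the centre -/
noncomputable def Kw (pos : ℕ → V) : Finset V := sset pos inn

lemma mem_Kw (pos : ℕ → V) (y : V) : y ∈ Kw pos ↔ ∃ u, 12 ≤ u ∧ u < 19 ∧ y = pos u := by
  unfold Kw
  rw [mem_sset]
  constructor
  · rintro ⟨u, hu, rfl⟩
    refine ⟨u, ?_, ?_, rfl⟩ <;> (simp only [inn, List.mem_cons, List.not_mem_nil, or_false] at hu; omega)
  · rintro ⟨u, h1, h2, rfl⟩
    refine ⟨u, ?_, rfl⟩
    simp only [inn, List.mem_cons, List.not_mem_nil, or_false]
    omega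

lemma vset_eq_Kw [Fintype V] {pos : ℕ → V} {S : List ℕ} {vs : List (ℕ × List ℕ)}
    (h : ∀ x, (x ∈ S ∨ ∃ u ∈ vs, x = u.1) ↔ x ∈ inn) : vset pos (sset pos S) vs = Kw pos := by
  ext y
  rw [mem_vset, mem_sset]
  unfold Kw
  rw [mem_sset]
  constructor
  · rintro (⟨u, hu, rfl⟩ | ⟨u, hu, rfl⟩)
    · exact ⟨u, (h u).1 (Or.inl hu), rfl⟩
    · exact ⟨u.1, (h u.1).1 (Or.inr ⟨u, hu, rfl⟩), rfl⟩
  · rintro ⟨u, hu, rfl⟩
    rcases (h u).2 hu with h1 | ⟨x, hx, rfl⟩
    · exact Or.inl ⟨u, h1, rfl⟩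
    · exact Or.inr ⟨x, hx, rfl⟩

lemma Win.notMem {H : SimpleGraph V} {pos : ℕ → V} (hW : Win H pos) {i : ℕ} (hi : i < 12) :
    pos i ∉ Kw pos := by
  rw [mem_Kw]
  rintro ⟨u, h1, h2, h3⟩
  exact hW.inj u h1 h2 i (by omega) h3

lemma Win.dl_ring {H : SimpleGraph V} {pos : ℕ → V} (hW : Win H pos) (k : ℕ)
    (hk : adjR.testBit k = true) : (dl H (Kw pos)).Adj (pos (k / 19)) (pos (k % 19)) := by
  obtain ⟨i, hi, h⟩ := testBit_adjR k hk
  have h2 : (i + 1) % 12 < 12 := Nat.mod_lt _ (by norm_num)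
  rcases h with h | h
  · have e1 : k / 19 = i := by omega
    have e2 : k % 19 = (i + 1) % 12 := by omega
    rw [e1, e2, dl_adj]
    exact ⟨hW.ring i hi, hW.notMem hi, hW.notMem h2⟩
  · have e1 : k / 19 = (i + 1) % 12 := by omega
    have e2 : k % 19 = i := by omega
    rw [e1, e2, dl_adj]
    exact ⟨(hW.ring i hi).symm, hW.notMem h2, hW.notMem hi⟩

section fin

variable [Fintype V]

/-- the window functional at `q` -/
noncomputable def Fw (H : SimpleGraph V) (pos : ℕ → V) (q : ℝ) (s : ℕ) : ℝ :=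
  (pl H (Kw pos) 19 pos s).eval q

/-- the functional with the inner slots `S` deleted -/
noncomputable def FS (H : SimpleGraph V) (pos : ℕ → V) (S : List ℕ) (q : ℝ) (s : ℕ) : ℝ :=
  (pl H (sset pos S) 19 pos s).eval q

lemma Fw_idp (H : SimpleGraph V) (pos : ℕ → V) (q : ℝ) :
    Fw H pos q (idp 19 19) = P q (dl H (Kw pos)) := by
  unfold Fw P
  rw [pl_idp]

lemma Fw_conflict {H : SimpleGraph V} {pos : ℕ → V} (hW : Win H pos) (q : ℝ) {s : ℕ}
    (hs : Nat.land s adjR ≠ 0) : Fw H pos q s = 0 := by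
  unfold Fw
  rw [pl_conflict (adj := adjR) (fun k hk => hW.dl_ring k hk) hs, eval_zero]

/-- **Expansion in a window.** -/
theorem Win.expand {K : Type} {neg mq : K → K} {add : K → K → K} (ι : K → ℝ[X])
    (hI : Ip neg mq add ι (X : ℝ[X])) {R C : ℕ} (h : PW 19 R C) {H : SimpleGraph V} {pos : ℕ → V}
    (hW : Win H pos) {S : List ℕ} (hS : ∀ u ∈ S, 12 ≤ u ∧ u < 19) (p n : ℕ) {T0 : Tr K}
    (hT0 : AllT (Eqv 19) T0) {vs : List (ℕ × List ℕ)} (hvs : VOK 19 vs adjR)
    (hg : vgb S vs = true) (hall : ∀ x, (x ∈ S ∨ ∃ u ∈ vs, x = u.1) ↔ x ∈ inn) (q : ℝ) :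
    q ^ vs.length * linT (fun k => (ι k).eval q) (FS H pos S q) T0 =
      linT (fun k => (ι k).eval q) (Fw H pos q)
        (Pool.Agent.U5C.expand neg mq add 19 R C p n T0 vs adjR) := by
  have h1 := expand_eval ι hI h H pos (sset pos S) p n hT0 hvs (hW.vg hS hg) (adj := adjR) (by
    intro k hk
    rw [vset_eq_Kw hall]
    exact hW.dl_ring k hk) q
  rw [vset_eq_Kw hall] at h1
  exact h1

lemma FS_nil_idp (H : SimpleGraph V) (pos : ℕ → V) (q : ℝ) :
    FS H pos [] q (idp 19 19) = P q H := by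
  unfold FS P
  rw [pl_idp]
  congr 2
  ext x y
  simp [dl_adj, mem_sset]

end fin

end Pool.Agent.Helper24.U5P
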